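import Pool.Agent.K4H33.SK.Kappa

/-! The action of the Galois group of the cubic field on the products of conjugates of `κ`. -/

set_option autoImplicit false
set_option linter.style.haveILetI false

namespace Pool.Agent.K4H33.SK
open NumberField Module IntermediateField

section

variable {ι : Qbar →+* ℂ} {K k k' : IntermediateField ℚ Qbar} {c c₀ σ₀ : GQ}
  {f : ℕ} [NeZero f] {ζ : Qbar} (hζ : IsPrimitiveRoot ζ f)
  {Y : Subgroup (QQ hζ k')} {g : Y → GQ}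

lemma agree_E (hk' : k' ≤ ℚ⟮ζ⟯) (hg1 : ∀ y, Fixes (K ⊔ k) (g y))
    (hg2 : ∀ y, qq hζ k' (g y) = y) {τ : GQ} (hτ : Fixes (K ⊔ k) τ) {y : Y}
    (hy : qq hζ k' τ = y) {x : Qbar} (hx : x ∈ K ⊔ k ⊔ k') : τ x = g y x := by
  refine agree_sup (fun z hz => ?_) ((qq_eq_iff hζ hk').1 ?_) x hx
  · rw [hτ z hz, hg1 y z hz]
  · rw [hy, hg2]

include hζ in
lemma comm_E (hN : Normal ℚ ↥(K ⊔ k)) (hk' : k' ≤ ℚ⟮ζ⟯) {τ : GQ} (hτ : Fixes (K ⊔ k) τ) (h : GQ)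
    {x : Qbar} (hx : x ∈ K ⊔ k ⊔ k') : h (τ x) = τ (h x) := by
  have h1 : ∀ x ∈ K ⊔ k ⊔ k', (h * τ) x = (τ * h) x := by
    refine agree_sup (fun z hz => ?_) (fun z hz => ?_)
    · rw [AlgEquiv.mul_apply, AlgEquiv.mul_apply, hτ z hz, hτ _ (normal_mem hN h hz)]
    · exact comm_adjoin hζ h τ z (hk' hz)
  exact h1 x hx

variable [Fintype Y]

/-- The action on products of conjugates with odd exponents. -/
lemma act_ell (hD : ConjData ι K k c c₀ σ₀) (hk : finrank ℚ k = 2) (hN : Normal ℚ ↥(K ⊔ k))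
    (hk' : k' ≤ ℚ⟮ζ⟯) (hY : ∀ g, Fixes (K ⊔ k) g → qq hζ k' g ∈ Y)
    (hg1 : ∀ y, Fixes (K ⊔ k) (g y)) (hg2 : ∀ y, qq hζ k' (g y) = y) {κ : Qbar}
    (hκ : κ ∈ K ⊔ k ⊔ k') (hc₀κ : c₀ κ = κ⁻¹) {τ : GQ} (hτ : Fixes K τ) {t : QQ hζ k' → ℤ}
    (ht : ∀ x, t (qq hζ k' c₀ * x) = -t x) :
    τ (ell (fun y : Y => g y κ) t) = ell (fun y : Y => g y κ) (fun x => t (qq hζ k' τ * x)) := by
  by_cases hτk : Fixes k τ
  · have hτN : Fixes (K ⊔ k) τ := fixes_sup.2 ⟨hτ, hτk⟩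
    let y₀ : Y := ⟨qq hζ k' τ, hY τ hτN⟩
    refine ell_act (y₀ := y₀) (fun y => ?_) t
    refine agree_E hζ hk' hg1 hg2 (τ := τ * g y) (hτN.mul (hg1 y)) (y := y₀ * y) ?_ hκ
    rw [map_mul, hg2]
    rfl
  · have hτc : Fixes (K ⊔ k) (τ * c₀) := fixes_sup.2 ⟨hτ.mul hD.c₀_K, quad hk hτk hD.c₀_k⟩
    let y₀ : Y := ⟨qq hζ k' (τ * c₀), hY _ hτc⟩
    have h1 := ell_act' (κ := fun y : Y => g y κ) (τ := τ) (y₀ := y₀) (fun y => ?_) t
    · rw [h1]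
      congr 1
      ext x
      rw [← ht]
      congr 1
      have h2 : qq hζ k' c₀ * qq hζ k' c₀ = 1 := by
        rw [← map_mul (qq hζ k'), hD.cc₀, map_one]
      have h3 : (y₀ : QQ hζ k') = qq hζ k' τ * qq hζ k' c₀ := map_mul (qq hζ k') τ c₀
      rw [h3]
      calc qq hζ k' c₀ * (qq hζ k' τ * qq hζ k' c₀ * x)
          = (qq hζ k' c₀ * qq hζ k' c₀) * (qq hζ k' τ * x) := by
            simp only [← mul_assoc, mul_comm (qq hζ k' c₀) (qq hζ k' τ)]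
            rw [mul_assoc (qq hζ k' τ)]
            conv_rhs => rw [mul_comm (qq hζ k' c₀ * qq hζ k' c₀) (qq hζ k' τ)]
        _ = qq hζ k' τ * x := by rw [h2]; exact one_mul (qq hζ k' τ * x)
    · have h2 : τ (g y κ) = (τ * c₀) (c₀ (g y κ)) := by
        rw [AlgEquiv.mul_apply, ← AlgEquiv.mul_apply c₀ c₀, hD.cc₀, AlgEquiv.one_apply]
      have h3 : (τ * c₀) (g y κ) = g (y₀ * y) κ := by
        refine agree_E hζ hk' hg1 hg2 (τ := (τ * c₀) * g y) (hτc.mul (hg1 y)) (y := y₀ * y) ?_ hκ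
        rw [map_mul (qq hζ k') (τ * c₀), hg2]
        rfl
      show τ (g y κ) = (g (y₀ * y) κ)⁻¹
      rw [h2, comm_E hζ hN hk' (hg1 y) c₀ hκ, hc₀κ, map_inv₀, map_inv₀, h3]

end

end Pool.Agent.K4H33.SK
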