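import Pool.Agent.K4H33.SK.Cyc

/-! Artin symbols act on roots of unity through the norm; counting ideals by their symbol. -/

set_option autoImplicit false
set_option linter.style.haveILetI false

namespace Pool.Agent.K4H33.SK
open NumberField Module IntermediateField

lemma coprime_norm {F : Type*} [Field F] [NumberField F] {f : ℕ} (𝔟 : Ideal (𝓞 F)) :
    IsCoprime 𝔟 (Ideal.span {(f : 𝓞 F)}) ↔ (Ideal.absNorm 𝔟).Coprime f := by
  constructor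
  · intro h
    by_contra hc
    obtain ⟨p, hp, h1, h2⟩ := Nat.Prime.not_coprime_iff_dvd.1 hc
    have hp' : Prime (p : ℤ) := Nat.prime_iff_prime_int.1 hp
    obtain ⟨P, hP, hP2, hP3⟩ := Ideal.exists_isMaximal_dvd_of_dvd_absNorm hp' 𝔟
      (by exact_mod_cast h1)
    have h3 : 𝔟 ≤ P := Ideal.le_of_dvd hP3
    have h4 : (p : 𝓞 F) ∈ P := by
      have h5 : (p : ℤ) ∈ Ideal.under ℤ P := by rw [hP2]; exact Ideal.mem_span_singleton_self _
      have h6 := Ideal.mem_comap.1 h5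
      simpa using h6
    have h5 : Ideal.span {(f : 𝓞 F)} ≤ P := by
      rw [Ideal.span_singleton_le_iff_mem]
      obtain ⟨r, hr⟩ := h2
      rw [hr, Nat.cast_mul]
      exact P.mul_mem_right _ h4
    apply hP.ne_top
    rw [Ideal.eq_top_iff_one]
    obtain ⟨i, hi, j, hj, hij⟩ := Ideal.isCoprime_iff_exists.1 h
    rw [← hij]
    exact P.add_mem (h3 hi) (h5 hj)
  · intro h
    rw [Ideal.isCoprime_iff_exists]
    have h1 := (Nat.isCoprime_iff_coprime.2 h)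
    obtain ⟨u, v, huv⟩ := h1
    refine ⟨u * (Ideal.absNorm 𝔟 : 𝓞 F), 𝔟.mul_mem_left _ (Ideal.absNorm_mem 𝔟), v * (f : 𝓞 F),
      Ideal.mul_mem_left _ _ (Ideal.mem_span_singleton_self _), ?_⟩
    exact_mod_cast congrArg (Int.cast : ℤ → 𝓞 F) huv

/-- two distinct roots of unity of order `f` are congruent only modulo divisors of `f` -/
lemma mem_of_roots {R : Type*} [CommRing R] [IsDomain R] {f : ℕ} (hf : 0 < f) {P : Ideal R}
    {y z : R} (hy : y ^ f = 1) (hz : z ^ f = 1) (hne : y ≠ z) (h : y - z ∈ P) : (f : R) ∈ P := by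
  set x := y * z ^ (f - 1) with hx
  have hzf : z ^ (f - 1) * z = 1 := by rw [← pow_succ, Nat.sub_add_cancel hf, hz]
  have hxf : x ^ f = 1 := by
    rw [hx, mul_pow, hy, one_mul, ← pow_mul, mul_comm, pow_mul, hz, one_pow]
  have hx1 : x ≠ 1 := by
    intro h1
    apply hne
    calc y = y * (z ^ (f - 1) * z) := by rw [hzf, mul_one]
      _ = x * z := by rw [hx, mul_assoc]
      _ = z := by rw [h1, one_mul]
  have hxP : x - 1 ∈ P := by
    have e : x - 1 = z ^ (f - 1) * (y - z) := by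
      rw [mul_sub, hzf, hx, mul_comm]
    rw [e]
    exact P.mul_mem_left _ h
  have h0 : ∑ i ∈ Finset.range f, x ^ i = 0 := by
    have h2 := mul_geom_sum x f
    rw [hxf, sub_self] at h2
    exact (mul_eq_zero.1 h2).resolve_left (sub_ne_zero.2 hx1)
  have h3 : (Ideal.Quotient.mk P) x = 1 := by
    rw [← map_one (Ideal.Quotient.mk P)]
    exact Ideal.Quotient.eq.2 hxP
  have h4 : (Ideal.Quotient.mk P) (f : R) = 0 := by
    have h5 := congrArg (Ideal.Quotient.mk P) h0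
    rw [map_sum] at h5
    simpa [h3] using h5
  exact Ideal.Quotient.eq_zero_iff_mem.1 h4

section

variable {F M : IntermediateField ℚ Qbar} [NumberField F] {𝔪 : Ideal (𝓞 F)}
  {art : Ideal (𝓞 F) → GQ} {f : ℕ} {ζ : Qbar}

lemma art_prime (hart : IsArtin F M 𝔪 art) (hf : 2 ≤ f) (hζ : IsPrimitiveRoot ζ f) (hM : ζ ∈ M)
    (h𝔪 : 𝔪 ≤ Ideal.span {(f : 𝓞 F)}) {𝔭 : Ideal (𝓞 F)} (hp : 𝔭.IsPrime) (hc : IsCoprime 𝔭 𝔪) :
    art 𝔭 ζ = ζ ^ Ideal.absNorm 𝔭 := by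
  haveI : Algebra.IsAlgebraic F Qbar := Algebra.IsAlgebraic.tower_top (K := ℚ) F
  haveI : Algebra.IsIntegral (𝓞 F) (𝓞 Qbar) := inferInstance
  obtain ⟨⟨𝔓, h𝔓, hl⟩⟩ := Ideal.nonempty_primesOver (S := 𝓞 Qbar) 𝔭
  have hint : IsIntegral ℤ ζ := hζ.isIntegral (by omega)
  have hint2 : IsIntegral ℤ (art 𝔭 ζ) := hint.map ((art 𝔭 : Qbar →+* Qbar).toIntAlgHom)
  let z : 𝓞 Qbar := ⟨ζ, hint⟩
  let y : 𝓞 Qbar := ⟨art 𝔭 ζ, hint2⟩
  have h1 := hart.frob 𝔭 hp hc 𝔓 h𝔓 hl z y hM rfl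
  by_contra hne
  have hz : z ^ f = 1 := by
    apply RingOfIntegers.ext
    show ζ ^ f = 1
    exact hζ.pow_eq_one
  have hy : y ^ f = 1 := by
    apply RingOfIntegers.ext
    show (art 𝔭 ζ) ^ f = 1
    rw [← map_pow, hζ.pow_eq_one, map_one]
  have h2 : (f : 𝓞 Qbar) ∈ 𝔓 := by
    refine mem_of_roots (by omega) hy (z := z ^ Ideal.absNorm 𝔭) ?_ ?_ h1
    · rw [← pow_mul, mul_comm, pow_mul, hz, one_pow]
    · intro h
      apply hne
      exact congrArg (fun t : 𝓞 Qbar => (t : Qbar)) h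
  have h3 : (f : 𝓞 F) ∈ 𝔭 := by
    rw [Ideal.mem_of_liesOver 𝔓 𝔭, map_natCast]
    exact h2
  apply hp.ne_top
  rw [Ideal.eq_top_iff_one]
  obtain ⟨i, hi, j, hj, hij⟩ := Ideal.isCoprime_iff_exists.1 hc
  rw [← hij]
  refine 𝔭.add_mem hi ?_
  have h4 := h𝔪 hj
  rw [Ideal.mem_span_singleton'] at h4
  obtain ⟨a, rfl⟩ := h4
  exact 𝔭.mul_mem_left _ h3

lemma norm_coprime (h𝔪 : 𝔪 ≤ Ideal.span {(f : 𝓞 F)}) {𝔟 : Ideal (𝓞 F)} (hc : IsCoprime 𝔟 𝔪) :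
    (Ideal.absNorm 𝔟).Coprime f := by
  rw [← coprime_norm]
  rw [Ideal.isCoprime_iff_exists] at *
  obtain ⟨i, hi, j, hj, hij⟩ := hc
  exact ⟨i, hi, j, h𝔪 hj, hij⟩

/-- **The Artin symbol acts on roots of unity through the norm.** -/
lemma art_zeta (hart : IsArtin F M 𝔪 art) (hf : 2 ≤ f) (hζ : IsPrimitiveRoot ζ f) (hM : ζ ∈ M)
    (h𝔪 : 𝔪 ≤ Ideal.span {(f : 𝓞 F)}) (𝔟 : Ideal (𝓞 F)) :
    IsCoprime 𝔟 𝔪 → art 𝔟 ζ = ζ ^ Ideal.absNorm 𝔟 := by
  induction 𝔟 using UniqueFactorizationMonoid.induction_on_prime with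
  | h₁ =>
    intro hc
    have h := norm_coprime h𝔪 hc
    rw [Ideal.zero_eq_bot, Ideal.absNorm_bot, Nat.coprime_zero_left] at h
    omega
  | h₂ 𝔟 hu =>
    intro hc
    have h1 : 𝔟 = 1 := by
      rw [Ideal.isUnit_iff] at hu
      rw [hu, Ideal.one_eq_top]
    subst h1
    have h2 := hart.mul 1 1 hc hc ζ hM
    rw [mul_one] at h2
    have h3 := (art 1).injective h2
    rw [← h3, Ideal.one_eq_top, Ideal.absNorm_top, pow_one]
  | h₃ 𝔟 𝔭 h0 hp ih =>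
    intro hc
    rw [IsCoprime.mul_left_iff] at hc
    rw [hart.mul 𝔭 𝔟 hc.1 hc.2 ζ hM, ih hc.2, map_pow,
      art_prime hart hf hζ hM h𝔪 (Ideal.isPrime_of_prime hp) hc.1, ← pow_mul, map_mul]

variable [NeZero f] {k' : IntermediateField ℚ Qbar}

lemma qq_art (hart : IsArtin F M 𝔪 art) (hf : 2 ≤ f) (hζ : IsPrimitiveRoot ζ f) (hM : ζ ∈ M)
    (h𝔪 : 𝔪 ≤ Ideal.span {(f : 𝓞 F)}) {𝔟 : Ideal (𝓞 F)} (hc : IsCoprime 𝔟 𝔪) {u : (ZMod f)ˣ}
    (hu : (u : ZMod f) = (Ideal.absNorm 𝔟 : ℕ)) : qq hζ k' (art 𝔟) = pp hζ k' u := by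
  rw [qq_apply, aut_eq hζ hu.symm (art_zeta hart hf hζ hM h𝔪 𝔟 hc)]

/-- The number of ideals with given symbol on a compositum with a cyclotomic field. -/
lemma cnt_sup (hart : IsArtin F M 𝔪 art) (hf : 2 ≤ f) (hζ : IsPrimitiveRoot ζ f) (hM : ζ ∈ M)
    (h𝔪 : 𝔪 ≤ Ideal.span {(f : 𝓞 F)}) (hk' : k' ≤ ℚ⟮ζ⟯) (L : IntermediateField ℚ Qbar) (g : GQ)
    (n : ℕ) :
    (cnt F (L ⊔ k') 𝔪 art g n : ℂ) = ind (pp hζ k') (qq hζ k' g) n * cnt F L 𝔪 art g n := by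
  classical
  unfold ind
  split_ifs with h
  · rw [one_mul]
    obtain ⟨u, hu, hg⟩ := h
    congr 1
    unfold cnt
    refine Nat.card_congr (Equiv.subtypeEquivRight fun 𝔟 => ?_)
    constructor
    · rintro ⟨h1, h2, h3⟩
      exact ⟨h1, h2, fun x hx => h3 x (le_sup_left (α := IntermediateField ℚ Qbar) hx)⟩
    · rintro ⟨h1, h2, h3⟩
      refine ⟨h1, h2, agree_sup h3 ?_⟩
      rw [← qq_eq_iff hζ hk', qq_art hart hf hζ hM h𝔪 h2 (u := u) (by rw [hu, h1]), hg]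
  · rw [zero_mul]
    norm_cast
    unfold cnt
    rw [Nat.card_eq_zero]
    left
    rw [isEmpty_subtype]
    rintro 𝔟 ⟨h1, h2, h3⟩
    apply h
    have h4 := norm_coprime h𝔪 h2
    refine ⟨ZMod.unitOfCoprime _ h4, by rw [ZMod.coe_unitOfCoprime, h1], ?_⟩
    rw [← qq_art hart hf hζ hM h𝔪 h2 (ZMod.coe_unitOfCoprime _ h4), qq_eq_iff hζ hk']
    intro x hx
    exact h3 x (le_sup_right (α := IntermediateField ℚ Qbar) hx)

omit [NeZero f] in
/-- The number of ideals of `F` with given symbol, when the symbol is determined by the norm. -/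
lemma cnt_base (hart : IsArtin F M (Ideal.span {(f : 𝓞 F)}) art) {g : GQ} (hg : Fixes F g)
    {n : ℕ} (hn : n.Coprime f) :
    cnt F F (Ideal.span {(f : 𝓞 F)}) art g n =
      Nat.card {𝔟 : Ideal (𝓞 F) // Ideal.absNorm 𝔟 = n} := by
  unfold cnt
  refine Nat.card_congr (Equiv.subtypeEquivRight fun 𝔟 => ?_)
  constructor
  · rintro ⟨h1, -, -⟩
    exact h1
  · intro h1
    have h2 : IsCoprime 𝔟 (Ideal.span {(f : 𝓞 F)}) := by
      rw [coprime_norm, h1]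
      exact hn
    exact ⟨h1, h2, fun x hx => by rw [hart.fix 𝔟 h2 x hx, hg x hx]⟩

end

end Pool.Agent.K4H33.SK
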