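import Mathlib

/-! Group ring elements acting on a unit, and the abelian root criterion. -/

set_option autoImplicit false

namespace Pool.Agent.K4H33.SK
open Finset

section El

variable {E : Type*} [Field E] [Algebra ℚ E] (B : Subgroup (E ≃ₐ[ℚ] E)) [Fintype B]

/-- The action of the element `∑ m b • b` of the group ring. -/
noncomputable def el (κ : E) (m : B → ℤ) : E := ∏ b : B, ((b : E ≃ₐ[ℚ] E) κ) ^ (m b)

variable {B} {κ : E}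

lemma apply_ne (hκ : κ ≠ 0) (γ : E ≃ₐ[ℚ] E) : γ κ ≠ 0 := by
  simpa using hκ

lemma el_ne (hκ : κ ≠ 0) (m : B → ℤ) : el B κ m ≠ 0 :=
  prod_ne_zero_iff.2 fun _ _ => zpow_ne_zero _ (apply_ne hκ _)

lemma el_add (hκ : κ ≠ 0) (m m' : B → ℤ) : el B κ (m + m') = el B κ m * el B κ m' := by
  simp only [el, Pi.add_apply, zpow_add₀ (apply_ne hκ _), prod_mul_distrib]

lemma el_neg (m : B → ℤ) : el B κ (-m) = (el B κ m)⁻¹ := by
  simp only [el, Pi.neg_apply, zpow_neg, prod_inv_distrib]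

lemma el_pow (n : ℕ) (m : B → ℤ) : el B κ m ^ n = el B κ (fun b => n * m b) := by
  simp only [el, ← prod_pow]
  refine prod_congr rfl fun b _ => ?_
  rw [← zpow_natCast, ← zpow_mul, mul_comm]

lemma el_apply (γ : E ≃ₐ[ℚ] E) (m : B → ℤ) :
    γ (el B κ m) = ∏ b : B, (γ ((b : E ≃ₐ[ℚ] E) κ)) ^ (m b) := by
  simp only [el, map_prod, map_zpow₀]

lemma el_shift (b₀ : B) (m : B → ℤ) :
    (b₀ : E ≃ₐ[ℚ] E) (el B κ m) = el B κ (fun b => m (b₀⁻¹ * b)) := by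
  rw [el_apply]
  symm
  rw [el, ← Equiv.prod_comp (Equiv.mulLeft b₀)]
  refine prod_congr rfl fun b _ => ?_
  simp

lemma el_conj {c : E ≃ₐ[ℚ] E} (hc : c κ = κ⁻¹) (hcB : ∀ b ∈ B, ∀ x, c (b x) = b (c x))
    (m : B → ℤ) : c (el B κ m) = el B κ (-m) := by
  rw [el_apply, el]
  refine prod_congr rfl fun b _ => ?_
  rw [hcB _ b.2, hc, map_inv₀, inv_zpow, Pi.neg_apply, zpow_neg]

lemma log_el (w : E →+* ℂ) (hκ : κ ≠ 0) (m : B → ℤ) :
    Real.log (‖w (el B κ m)‖ ^ 2) =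
      ∑ b : B, (m b : ℝ) * Real.log (‖w ((b : E ≃ₐ[ℚ] E) κ)‖ ^ 2) := by
  rw [el, map_prod, norm_prod, ← prod_pow, Real.log_prod]
  · refine sum_congr rfl fun b _ => ?_
    rw [map_zpow₀, norm_zpow, ← Real.log_zpow]
    congr 1
    rw [← zpow_natCast, ← zpow_natCast, ← zpow_mul, ← zpow_mul, mul_comm]
  · intro b _
    have : w ((b : E ≃ₐ[ℚ] E) κ) ≠ 0 := by
      rw [Ne, map_eq_zero]
      exact apply_ne hκ _
    rw [map_zpow₀, norm_zpow]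
    have h2 : ‖w ((b : E ≃ₐ[ℚ] E) κ)‖ ≠ 0 := norm_ne_zero_iff.2 this
    positivity

end El

section Root

variable {Ω : Type*} [Field Ω] [Algebra ℚ Ω]

/-- Automorphisms `σ` which act on `lam` by `ξ lam ^ n α` with a root of unity `ξ` commute on `lam`
if the `α` satisfy the cocycle condition. -/
lemma comm_of_cocycle {W : ℕ} {lam : Ω} (hlam : lam ≠ 0) {σ τ : Ω ≃ₐ[ℚ] Ω}
    {n m : ℕ} {a b : Ω} (ha : a ≠ 0) (hb : b ≠ 0)
    (hσ : ∀ ξ : Ω, ξ ^ W = 1 → σ ξ = ξ ^ n) (hτ : ∀ ξ : Ω, ξ ^ W = 1 → τ ξ = ξ ^ m)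
    (h1 : (σ lam) ^ W = (lam ^ n * a) ^ W) (h2 : (τ lam) ^ W = (lam ^ m * b) ^ W)
    (h3 : b ^ n * τ a = a ^ m * σ b) : σ (τ lam) = τ (σ lam) := by
  have e1 : ∃ ξ : Ω, ξ ^ W = 1 ∧ σ lam = ξ * (lam ^ n * a) := by
    have h0 : lam ^ n * a ≠ 0 := mul_ne_zero (pow_ne_zero _ hlam) ha
    refine ⟨σ lam / (lam ^ n * a), ?_, ?_⟩
    · rw [div_pow, h1, div_self (pow_ne_zero _ h0)]
    · field_simp
  have e2 : ∃ ξ : Ω, ξ ^ W = 1 ∧ τ lam = ξ * (lam ^ m * b) := by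
    have h0 : lam ^ m * b ≠ 0 := mul_ne_zero (pow_ne_zero _ hlam) hb
    refine ⟨τ lam / (lam ^ m * b), ?_, ?_⟩
    · rw [div_pow, h2, div_self (pow_ne_zero _ h0)]
    · field_simp
  obtain ⟨ξ, hξ, e1⟩ := e1
  obtain ⟨η, hη, e2⟩ := e2
  have f1 : τ (σ lam) = ξ ^ m * ((η * (lam ^ m * b)) ^ n * τ a) := by
    rw [e1, map_mul, map_mul, map_pow, hτ ξ hξ, e2]
  have f2 : σ (τ lam) = η ^ n * ((ξ * (lam ^ n * a)) ^ m * σ b) := by
    rw [e2, map_mul, map_mul, map_pow, hσ η hη, e1]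
  rw [f1, f2]
  calc η ^ n * ((ξ * (lam ^ n * a)) ^ m * σ b)
      = η ^ n * ξ ^ m * lam ^ (n * m) * (a ^ m * σ b) := by ring
    _ = η ^ n * ξ ^ m * lam ^ (n * m) * (b ^ n * τ a) := by rw [h3]
    _ = ξ ^ m * ((η * (lam ^ m * b)) ^ n * τ a) := by ring

end Root

end Pool.Agent.K4H33.SK
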