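import Pool.Agent.K4H33.SK.Hur

/-! Stickelberger elements: integrality and values of partial zeta functions at zero. -/

set_option autoImplicit false

namespace Pool.Agent.K4H33.SK
open Complex Finset

variable {f : ℕ} [NeZero f] {Q : Type*} [CommGroup Q] (p : (ZMod f)ˣ →* Q)

open Classical in
/-- The value at zero of the partial zeta function of the class `x`. -/
noncomputable def theta (x : Q) : ℚ :=
  ∑ u : (ZMod f)ˣ, if p u = x then (1 / 2 - ((u : ZMod f).val : ℚ) / f) else 0

lemma val_mul_int (m : ℕ) (v u : (ZMod f)ˣ) (hv : (m : ZMod f) = v) :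
    ∃ t : ℤ, (((v * u : (ZMod f)ˣ) : ZMod f).val : ℚ) / f = m * (((u : ZMod f).val : ℚ) / f) - t := by
  have h1 : ((v * u : (ZMod f)ˣ) : ZMod f) = ((m * (u : ZMod f).val : ℕ) : ZMod f) := by
    rw [Units.val_mul, Nat.cast_mul, ZMod.natCast_zmod_val, hv]
  rw [h1, ZMod.val_natCast]
  refine ⟨((m * (u : ZMod f).val / f : ℕ) : ℤ), ?_⟩
  have h2 := Nat.div_add_mod (m * (u : ZMod f).val) f
  have hf : (f : ℚ) ≠ 0 := Nat.cast_ne_zero.2 (NeZero.ne f)
  have h3 : (f : ℚ) * ((m * (u : ZMod f).val / f : ℕ) : ℚ) + ((m * (u : ZMod f).val % f : ℕ) : ℚ) =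
      m * ((u : ZMod f).val : ℚ) := by exact_mod_cast h2
  rw [Int.cast_natCast]
  field_simp
  linarith

/-- The main integrality property of Stickelberger elements. -/
lemma theta_int (m : ℕ) (hm : Odd m) (v : (ZMod f)ˣ) (hv : (m : ZMod f) = v) (x : Q) :
    ∃ t : ℤ, theta p (p v * x) - m * theta p x = t := by
  classical
  have h1 : theta p (p v * x) =
      ∑ u : (ZMod f)ˣ, if p u = x then (1 / 2 - (((v * u : (ZMod f)ˣ) : ZMod f).val : ℚ) / f) else 0 := by
    unfold theta
    rw [← Equiv.sum_comp (Equiv.mulLeft v)]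
    refine sum_congr rfl fun u _ => ?_
    simp only [Equiv.coe_mulLeft, map_mul, mul_right_inj]
  obtain ⟨r, hr⟩ := hm
  choose t ht using fun u => val_mul_int m v u hv
  refine ⟨∑ u : (ZMod f)ˣ, if p u = x then (t u - r) else 0, ?_⟩
  rw [h1, theta, mul_sum, ← sum_sub_distrib, Int.cast_sum]
  refine sum_congr rfl fun u _ => ?_
  split_ifs with h
  · rw [ht u, hr]
    push_cast
    ring
  · simp

lemma theta_neg (hf : 2 ≤ f) (x : Q) : theta p (p (-1) * x) = -theta p x := by
  classical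
  unfold theta
  rw [← Equiv.sum_comp (Equiv.mulLeft (-1 : (ZMod f)ˣ)), ← sum_neg_distrib]
  refine sum_congr rfl fun u _ => ?_
  simp only [Equiv.coe_mulLeft, map_mul, mul_right_inj]
  split_ifs with h
  · have h0 : (u : ZMod f) ≠ 0 := by
      intro h0
      have h1 := u.isUnit
      rw [h0] at h1
      have : Fact (1 < f) := ⟨hf⟩
      exact not_isUnit_zero h1
    have : NeZero (u : ZMod f) := ⟨h0⟩
    have h2 : ((-1 * u : (ZMod f)ˣ) : ZMod f) = -(u : ZMod f) := by simp
    rw [h2, ZMod.val_neg_of_ne_zero, Nat.cast_sub (ZMod.val_lt _).le]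
    have hf0 : (f : ℚ) ≠ 0 := Nat.cast_ne_zero.2 (NeZero.ne f)
    field_simp
    ring
  · simp

lemma two_f_theta (x : Q) : ∃ t : ℤ, (2 * f : ℕ) * theta p x = t := by
  classical
  refine ⟨∑ u : (ZMod f)ˣ, if p u = x then ((f : ℤ) - 2 * ((u : ZMod f).val : ℤ)) else 0, ?_⟩
  rw [theta, mul_sum, Int.cast_sum]
  refine sum_congr rfl fun u _ => ?_
  have hf0 : (f : ℚ) ≠ 0 := Nat.cast_ne_zero.2 (NeZero.ne f)
  split_ifs with h
  · push_cast
    field_simp
  · simp

open Classical in
/-- The indicator function of the class `x`. -/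
noncomputable def ind (x : Q) (j : ZMod f) : ℂ := if ∃ u : (ZMod f)ˣ, (u : ZMod f) = j ∧ p u = x then 1 else 0

lemma sum_ind (x : Q) (F : ZMod f → ℂ) :
    ∑ j, ind p x j * F j = ∑ u : (ZMod f)ˣ, open Classical in if p u = x then F u else 0 := by
  classical
  rw [← sum_filter]
  have h1 : ∑ j, ind p x j * F j = ∑ j with (∃ u : (ZMod f)ˣ, (u : ZMod f) = j ∧ p u = x), F j := by
    rw [sum_filter]
    refine sum_congr rfl fun j _ => ?_
    simp only [ind]
    split_ifs <;> simp
  rw [h1]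
  symm
  refine sum_bij (fun u _ => (u : ZMod f)) ?_ ?_ ?_ ?_
  · intro u hu
    simp only [mem_filter, mem_univ, true_and] at hu ⊢
    exact ⟨u, rfl, hu⟩
  · intro u _ v _ h
    exact Units.ext h
  · intro j hj
    simp only [mem_filter, mem_univ, true_and] at hj
    obtain ⟨u, hu, hx⟩ := hj
    exact ⟨u, by simpa using hx, hu⟩
  · intro u _
    rfl

/-- The continuation of the partial zeta function of the class `x`. -/
noncomputable def zq (x : Q) (s : ℂ) : ℂ := ZMod.LFunction (ind p x) s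

lemma zq_diff (x : Q) {s : ℂ} (hs : s ≠ 1) : DifferentiableAt ℂ (zq p x) s :=
  ZMod.differentiableAt_LFunction _ s (Or.inl hs)

lemma zq_hasSum (x : Q) {s : ℂ} (hs : 1 < s.re) :
    LSeriesHasSum (fun n : ℕ => ind p x n) s (zq p x s) := by
  rw [zq, ZMod.LFunction_eq_LSeries _ hs]
  exact (ZMod.LSeriesSummable_of_one_lt_re _ hs).LSeriesHasSum

lemma zq_zero (hf : 2 ≤ f) (x : Q) : zq p x 0 = (theta p x : ℂ) := by
  classical
  unfold zq ZMod.LFunction
  rw [neg_zero, Complex.cpow_zero, one_mul, sum_ind, theta, Rat.cast_sum]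
  refine sum_congr rfl fun u _ => ?_
  split_ifs with h
  · have h0 : (u : ZMod f) ≠ 0 := by
      intro h0
      have h1 := u.isUnit
      rw [h0] at h1
      have : Fact (1 < f) := ⟨hf⟩
      exact not_isUnit_zero h1
    have hv : 0 < (u : ZMod f).val := Nat.pos_of_ne_zero (by rwa [Ne, ZMod.val_eq_zero])
    have hf0 : (0 : ℝ) < f := by exact_mod_cast Nat.pos_of_ne_zero (NeZero.ne f)
    rw [ZMod.toAddCircle_apply, hurwitzZeta_at_zero]
    · push_cast
      ring
    · positivity
    · rw [div_le_one hf0]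
      exact_mod_cast (ZMod.val_lt _).le
  · simp

end Pool.Agent.K4H33.SK
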