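import Pool.Agent.K4H33.SK.Gal
import Pool.Agent.K4H33.SK.Stick

/-! The cyclotomic part: the group of a subfield of a cyclotomic field, and integrality. -/

set_option autoImplicit false
set_option linter.style.haveILetI false

namespace Pool.Agent.K4H33.SK
open NumberField Module IntermediateField

/-- Any automorphism acts on roots of unity of bounded order through a power. -/
lemma exists_pow {L₀ : ℕ} (hL : 0 < L₀) (σ : GQ) :
    ∃ n : ℕ, n.Coprime L₀ ∧ ∀ ξ : Qbar, ξ ^ L₀ = 1 → σ ξ = ξ ^ n := by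
  haveI : NeZero L₀ := ⟨hL.ne'⟩
  haveI : NeZero ((L₀ : ℕ) : Qbar) := ⟨Nat.cast_ne_zero.2 hL.ne'⟩
  obtain ⟨η, hη⟩ := HasEnoughRootsOfUnity.exists_primitiveRoot Qbar L₀
  have h1 : IsPrimitiveRoot (σ η) L₀ := hη.map_of_injective σ.injective
  obtain ⟨n, hn, h2⟩ := hη.eq_pow_of_pow_eq_one h1.pow_eq_one
  have h3 : n.Coprime L₀ := by
    rw [← h2] at h1
    exact (hη.pow_iff_coprime hL n).1 h1
  refine ⟨n, h3, fun ξ hξ => ?_⟩
  obtain ⟨i, hi, rfl⟩ := hη.eq_pow_of_pow_eq_one hξ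
  rw [map_pow, ← h2, ← pow_mul, ← pow_mul, mul_comm]

section

variable {f : ℕ} [NeZero f] {ζ : Qbar} (hζ : IsPrimitiveRoot ζ f) (k' : IntermediateField ℚ Qbar)

/-- The subgroup of `(ℤ/f)ˣ` cut out by `k'`. -/
noncomputable def UU : Subgroup (ZMod f)ˣ := k'.fixingSubgroup.map (hζ.autToPow ℚ)

/-- The Galois group of `k'` as a quotient of `(ℤ/f)ˣ`. -/
def QQ : Type := (ZMod f)ˣ ⧸ (UU hζ k')

noncomputable instance : CommGroup (QQ hζ k') :=
  inferInstanceAs (CommGroup ((ZMod f)ˣ ⧸ (UU hζ k')))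

instance : Finite (QQ hζ k') := inferInstanceAs (Finite ((ZMod f)ˣ ⧸ (UU hζ k')))

/-- The projection. -/
noncomputable def pp : (ZMod f)ˣ →* QQ hζ k' := QuotientGroup.mk' (UU hζ k')

/-- The class of an automorphism. -/
noncomputable def qq : GQ →* QQ hζ k' := (pp hζ k').comp (hζ.autToPow ℚ)

variable {k'}

lemma qq_apply (g : GQ) : qq hζ k' g = pp hζ k' (hζ.autToPow ℚ g) := rfl

lemma pp_surj : Function.Surjective (pp hζ k') := QuotientGroup.mk'_surjective _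

lemma aut_eq {g : GQ} {u : (ZMod f)ˣ} {n : ℕ} (hn : (n : ZMod f) = u) (h : g ζ = ζ ^ n) :
    hζ.autToPow ℚ g = u := by
  have h1 := hζ.autToPow_spec ℚ g
  rw [h] at h1
  have h2 := (hζ.isOfFinOrder (NeZero.ne _)).pow_eq_pow_iff_modEq.1 h1
  rw [← hζ.eq_orderOf] at h2
  have h3 := (ZMod.natCast_eq_natCast_iff _ _ _).2 h2
  rw [ZMod.natCast_zmod_val, hn] at h3
  exact Units.ext h3

lemma fixes_adjoin {g : GQ} (h : g ζ = ζ) : Fixes ℚ⟮ζ⟯ g := by
  have h1 : ℚ⟮ζ⟯ ≤ fixedField (Subgroup.zpowers g) := by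
    rw [adjoin_simple_le_iff, mem_fixedField_iff]
    intro s hs
    obtain ⟨n, rfl⟩ := Subgroup.mem_zpowers_iff.1 hs
    have h2 : g ∈ MulAction.stabilizer GQ ζ := h
    exact zpow_mem h2 n
  intro x hx
  have h2 := h1 hx
  rw [mem_fixedField_iff] at h2
  exact h2 g (Subgroup.mem_zpowers g)

lemma agree_adjoin {g g' : GQ} (h : g ζ = g' ζ) : ∀ x ∈ ℚ⟮ζ⟯, g x = g' x := by
  rw [agree_iff]
  apply fixes_adjoin
  rw [AlgEquiv.mul_apply, AlgEquiv.aut_inv, AlgEquiv.symm_apply_eq, h]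

include hζ in
lemma comm_adjoin (g g' : GQ) : ∀ x ∈ ℚ⟮ζ⟯, g (g' x) = g' (g x) := by
  intro x hx
  have h : (g * g') ζ = (g' * g) ζ := by
    rw [← hζ.autToPow_spec ℚ, ← hζ.autToPow_spec ℚ, map_mul, map_mul, mul_comm]
  exact agree_adjoin h x hx

lemma qq_eq_iff (hk' : k' ≤ ℚ⟮ζ⟯) {g g' : GQ} :
    qq hζ k' g = qq hζ k' g' ↔ ∀ x ∈ k', g x = g' x := by
  constructor
  · intro h
    rw [qq_apply, qq_apply] at h
    have h1 := (QuotientGroup.eq).1 h
    rw [← map_inv, ← map_mul] at h1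
    obtain ⟨u, hu, hu2⟩ := h1
    have h2 : (g * u) ζ = g' ζ := by
      rw [← hζ.autToPow_spec ℚ, ← hζ.autToPow_spec ℚ, map_mul, hu2, map_mul, map_inv,
        mul_inv_cancel_left]
    intro x hx
    have h3 := agree_adjoin h2 x (hk' hx)
    rw [← h3, AlgEquiv.mul_apply]
    congr 1
    exact ((fixes_iff.2 hu) x hx).symm
  · intro h
    rw [qq_apply, qq_apply]
    refine (QuotientGroup.eq).2 ?_
    rw [← map_inv, ← map_mul]
    refine ⟨g⁻¹ * g', ?_, rfl⟩
    rw [SetLike.mem_coe, ← fixes_iff]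
    exact agree_iff.1 (fun x hx => (h x hx).symm)

lemma aut_conj {ι : Qbar →+* ℂ} {c : GQ} (hc : ∀ x, ι (c x) = (starRingEnd ℂ) (ι x)) :
    hζ.autToPow ℚ c = -1 := by
  have h0 : ι ζ ≠ 0 := by
    rw [Ne, map_eq_zero]
    exact hζ.ne_zero (NeZero.ne f)
  have h1 : c ζ = ζ⁻¹ := by
    apply ι.injective
    rw [hc, map_inv₀]
    have h2 : ‖ι ζ‖ = 1 := by
      refine Complex.norm_eq_one_of_pow_eq_one (n := f) ?_ (NeZero.ne f)
      rw [← map_pow, hζ.pow_eq_one, map_one]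
    rw [← Complex.inv_eq_conj h2]
  have h3 := hζ.autToPow_spec ℚ c
  rw [h1] at h3
  have h4 : ζ ^ ((hζ.autToPow ℚ c : ZMod f).val + 1) = 1 := by
    rw [pow_succ, h3, inv_mul_cancel₀ (hζ.ne_zero (NeZero.ne f))]
  have h5 := (hζ.pow_eq_one_iff_dvd _).1 h4
  have h6 := (ZMod.natCast_eq_zero_iff _ f).2 h5
  rw [Nat.cast_add, ZMod.natCast_zmod_val, Nat.cast_one] at h6
  ext
  rw [Units.val_neg, Units.val_one]
  exact eq_neg_of_add_eq_zero_left h6

/-- **Integrality** of the Stickelberger elements multiplied by the number of roots of unity. -/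
lemma W_theta {H : IntermediateField ℚ Qbar} (hH : k' ≤ H) {W : ℕ}
    (hW : IsTorsionOrder H W) (x : QQ hζ k') : ∃ t : ℤ, (W : ℚ) * theta (pp hζ k') x = t := by
  have hf : 0 < f := Nat.pos_of_ne_zero (NeZero.ne f)
  -- the ideal of integers `z` with `z θ` integral
  let D : Ideal ℤ :=
    { carrier := {z | ∀ x : QQ hζ k', ∃ t : ℤ, (z : ℚ) * theta (pp hζ k') x = t}
      add_mem' := by
        intro a b ha hb x
        obtain ⟨t, ht⟩ := ha x
        obtain ⟨s, hs⟩ := hb x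
        exact ⟨t + s, by push_cast; rw [add_mul, ht, hs]⟩
      zero_mem' := fun x => ⟨0, by simp⟩
      smul_mem' := by
        intro c a ha x
        obtain ⟨t, ht⟩ := ha x
        exact ⟨c * t, by rw [smul_eq_mul]; push_cast; rw [mul_assoc, ht]⟩ }
  have hD1 : ((2 * f : ℕ) : ℤ) ∈ D := fun x => by
    obtain ⟨t, ht⟩ := two_f_theta (pp hζ k') x
    exact ⟨t, by rw [← ht]; push_cast; rfl⟩
  obtain ⟨d₀, hd₀⟩ := (IsPrincipalIdealRing.principal D).principal
  set d : ℕ := d₀.natAbs with hd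
  have hDd : ∀ z : ℤ, z ∈ D ↔ (d : ℤ) ∣ z := by
    intro z
    rw [hd₀, Ideal.submodule_span_eq, Ideal.mem_span_singleton, hd, Int.natAbs_dvd]
  have hd2f : d ∣ 2 * f := by
    have := (hDd _).1 hD1
    exact_mod_cast this
  have hdpos : 0 < d := Nat.pos_of_dvd_of_pos hd2f (by positivity)
  -- the action of automorphisms fixing `k'`
  have key : ∀ ξ : Qbar, ξ ^ d = 1 → ξ ∈ k' := by
    intro ξ hξ
    apply mem_of_fixed
    intro σ hσ
    obtain ⟨m, hm, hm2⟩ := exists_pow (L₀ := 2 * f) (by positivity) σ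
    have hmf : m.Coprime f := Nat.Coprime.coprime_mul_left_right hm
    have hm2' : m.Coprime 2 := Nat.Coprime.coprime_mul_right_right hm
    have hodd : Odd m := by
      exact Nat.coprime_two_right.1 hm2'
    set v : (ZMod f)ˣ := ZMod.unitOfCoprime m hmf with hv
    have hv1 : (m : ZMod f) = v := (ZMod.coe_unitOfCoprime m hmf).symm
    have hv2 : hζ.autToPow ℚ σ = v := by
      refine aut_eq hζ hv1 (hm2 ζ ?_)
      rw [mul_comm, pow_mul, hζ.pow_eq_one, one_pow]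
    have hv3 : pp hζ k' v = 1 := by
      rw [← hv2]
      exact (QuotientGroup.eq_one_iff _).2 ⟨σ, fixes_iff.1 hσ, rfl⟩
    have hmD : (1 - m : ℤ) ∈ D := by
      intro x
      obtain ⟨t, ht⟩ := theta_int (pp hζ k') m hodd v hv1 x
      have e1 : (pp hζ k') v * x = x := by
        rw [hv3]; exact one_mul x
      rw [e1] at ht
      exact ⟨t, by push_cast; linarith⟩
    have h1 := (hDd _).1 hmD
    have hm1 : 1 ≤ m := by
      rcases hodd with ⟨r, hr⟩; omega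
    obtain ⟨r, hr⟩ : d ∣ m - 1 := by
      have h2 : (d : ℤ) ∣ ((m - 1 : ℕ) : ℤ) := by
        rw [Nat.cast_sub hm1, Nat.cast_one, ← neg_sub]
        exact (dvd_neg).2 h1
      exact_mod_cast h2
    have h3 : ξ ^ (2 * f) = 1 := by
      obtain ⟨s, hs⟩ := hd2f
      rw [hs, pow_mul, hξ, one_pow]
    rw [hm2 ξ h3, show m = d * r + 1 by omega, pow_add, pow_mul, hξ, one_pow, one_mul, pow_one]
  have hdW : d ∣ W := by
    haveI : NeZero d := ⟨hdpos.ne'⟩
    haveI : NeZero ((d : ℕ) : Qbar) := ⟨Nat.cast_ne_zero.2 hdpos.ne'⟩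
    obtain ⟨ξ, hξ⟩ := HasEnoughRootsOfUnity.exists_primitiveRoot Qbar d
    have h1 := (hW.2 ξ).1 ⟨hH (key ξ hξ.pow_eq_one), d, hdpos, hξ.pow_eq_one⟩
    exact hξ.dvd_of_pow_eq_one W h1
  have h2 : (W : ℤ) ∈ D := (hDd _).2 (by exact_mod_cast hdW)
  obtain ⟨t, ht⟩ := h2 x
  exact ⟨t, by rw [← ht]; push_cast; rfl⟩

end

end Pool.Agent.K4H33.SK
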