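import Mathlib

/-! Definitions for the rank one abelian Stark conjecture inside a fixed algebraic closure of `ℚ`. -/

set_option autoImplicit false

namespace Pool.Agent.K4H33.SK
open NumberField

/-- A fixed algebraic closure of `ℚ`. -/
abbrev Qbar := AlgebraicClosure ℚ

/-- The absolute Galois group of `ℚ`. -/
abbrev GQ := Qbar ≃ₐ[ℚ] Qbar

/-- `W` is the number of roots of unity of `L`. -/
def IsTorsionOrder (L : IntermediateField ℚ Qbar) (W : ℕ) : Prop :=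
  0 < W ∧ ∀ ξ : Qbar, (ξ ∈ L ∧ ∃ n : ℕ, 0 < n ∧ ξ ^ n = 1) ↔ ξ ^ W = 1

/-- `Z` is the continuation, holomorphic away from `s = 1`, of the Dirichlet series
`∑ a n / n ^ s`, which converges for `Re s > 1`. -/
def IsZeta (a : ℕ → ℕ) (Z : ℂ → ℂ) : Prop :=
  DifferentiableOn ℂ Z {1}ᶜ ∧
    ∀ s : ℂ, 1 < s.re → LSeriesHasSum (fun n => (a n : ℂ)) s (Z s)

/-- `art 𝔟` is (a lift to `Qbar` of) the Artin symbol `(𝔟, M/F)`, for ideals `𝔟` of `F` prime to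
`𝔪`: it fixes `F`, it is multiplicative in `𝔟`, and it is the Frobenius automorphism
`x ↦ x ^ N𝔭` modulo every prime `𝔓` above `𝔭`, for `𝔭` prime. -/
structure IsArtin (F M : IntermediateField ℚ Qbar) [NumberField F] (𝔪 : Ideal (𝓞 F))
    (art : Ideal (𝓞 F) → GQ) : Prop where
  fix : ∀ 𝔟 : Ideal (𝓞 F), IsCoprime 𝔟 𝔪 → ∀ x ∈ F, art 𝔟 x = x
  mul : ∀ 𝔟 𝔠 : Ideal (𝓞 F), IsCoprime 𝔟 𝔪 → IsCoprime 𝔠 𝔪 →
    ∀ x ∈ M, art (𝔟 * 𝔠) x = art 𝔟 (art 𝔠 x)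
  frob : ∀ 𝔭 : Ideal (𝓞 F), 𝔭.IsPrime → IsCoprime 𝔭 𝔪 →
    ∀ 𝔓 : Ideal (𝓞 Qbar), 𝔓.IsPrime → 𝔓.LiesOver 𝔭 →
      ∀ x y : 𝓞 Qbar, (x : Qbar) ∈ M → (y : Qbar) = art 𝔭 (x : Qbar) →
        y - x ^ Ideal.absNorm 𝔭 ∈ 𝔓

/-- The number of ideals of `F` of norm `n`, prime to `𝔪`, whose Artin symbol on `L` is `σ`: the
`n`-th coefficient of the partial zeta function of `σ`. -/
noncomputable def cnt (F L : IntermediateField ℚ Qbar) [NumberField F] (𝔪 : Ideal (𝓞 F))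
    (art : Ideal (𝓞 F) → GQ) (σ : GQ) (n : ℕ) : ℕ :=
  Nat.card {𝔟 : Ideal (𝓞 F) // Ideal.absNorm 𝔟 = n ∧ IsCoprime 𝔟 𝔪 ∧ ∀ x ∈ L, art 𝔟 x = σ x}

/-- `σ` fixes `F`. -/
def Fixes (F : IntermediateField ℚ Qbar) (σ : GQ) : Prop := ∀ x ∈ F, σ x = x

/-- The extension of `F` generated by the `W`-th roots of `ε` is abelian. -/
def AbelianRoot (F : IntermediateField ℚ Qbar) (W : ℕ) (ε : Qbar) : Prop :=
  ∀ lam : Qbar, lam ^ W = ε → ∀ σ τ : GQ, Fixes F σ → Fixes F τ → σ (τ lam) = τ (σ lam)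

/-- The limit formula: the Dirichlet series with coefficients `cnt σ` continue to functions `Z σ`
with `log |σ ε|_v = - W * (Z σ)'(0)` for the complex place `v` given by `ι`. -/
def LimitFormula (ι : Qbar →+* ℂ) (F : IntermediateField ℚ Qbar) (W : ℕ) (c : GQ → ℕ → ℕ)
    (Z : GQ → ℂ → ℂ) (ε : Qbar) : Prop :=
  ∀ σ : GQ, Fixes F σ → IsZeta (c σ) (Z σ) ∧ Z σ 0 = 0 ∧
    (Real.log (‖ι (σ ε)‖ ^ 2) : ℂ) = -(W : ℂ) * deriv (Z σ) 0

/-- What Stark's theorem gives for an abelian extension `L` of an imaginary quadratic field `k`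
and the set of places of `k` given by `𝔪` and infinity, where `W` is the number of roots of unity
of `L`. -/
def StarkImQuad (ι : Qbar →+* ℂ) (k L : IntermediateField ℚ Qbar) [NumberField k]
    (𝔪 : Ideal (𝓞 k)) (art : Ideal (𝓞 k) → GQ) (W : ℕ) : Prop :=
  ∃ (Z : GQ → ℂ → ℂ) (ε : Qbar), ε ∈ L ∧ ε ≠ 0 ∧ LimitFormula ι k W (cnt k L 𝔪 art) Z ε ∧
    (∀ σ : GQ, Fixes k σ → IsIntegral ℤ (σ ε / ε)) ∧ AbelianRoot k W ε

/-- The rank one abelian Stark conjecture, in Tate's refined form, for an abelian extension `H` of a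
complex cubic field `K` whose complex place is given by `ι`: there is a Stark unit `ε`. -/
def StarkCubic (ι : Qbar →+* ℂ) (K H : IntermediateField ℚ Qbar) [NumberField K]
    (𝔣 : Ideal (𝓞 K)) (art : Ideal (𝓞 K) → GQ) (W : ℕ) : Prop :=
  ∃ (Z : GQ → ℂ → ℂ) (ε : Qbar), ε ∈ H ∧ ε ≠ 0 ∧ LimitFormula ι K W (cnt K H 𝔣 art) Z ε ∧
    IsIntegral ℤ ε ∧ IsIntegral ℤ ε⁻¹ ∧
    (∀ w : Qbar →+* ℂ, (∀ x ∈ K, (w x).im = 0) → ‖w ε‖ = 1) ∧ AbelianRoot K W ε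

/-- The Artin factorization `ζ_K(s) = ζ(s) L(s, ψ)` of the zeta function of a cubic field `K`, with
`ψ` a cubic character of its quadratic resolvent field `k`, on the coefficients prime to `f`. -/
def ArtinFactorization (K k : IntermediateField ℚ Qbar) [NumberField K] [NumberField k]
    (f : ℕ) (𝔪 : Ideal (𝓞 k)) (art : Ideal (𝓞 k) → GQ) : Prop :=
  ∀ σ : GQ, Fixes k σ → ¬ Fixes K σ → ∀ n : ℕ, n.Coprime f →
    (Nat.card {𝔞 : Ideal (𝓞 K) // Ideal.absNorm 𝔞 = n} : ℤ) =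
      ∑ d ∈ n.divisors, ((cnt k (K ⊔ k) 𝔪 art 1 d : ℤ) - cnt k (K ⊔ k) 𝔪 art σ d)

end Pool.Agent.K4H33.SK
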