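import Pool.Agent.K4H33.SK.Prime

/-! Stark units over complex cubic fields for arbitrary moduli. -/

set_option autoImplicit false
set_option linter.style.haveILetI false

namespace Pool.Agent.K4H33.SK
open NumberField Module IntermediateField

lemma starkCubic_modulus {ι : Qbar →+* ℂ} {K H : IntermediateField ℚ Qbar} [NumberField K]
    {𝔤 𝔤' : Ideal (𝓞 K)} {art : Ideal (𝓞 K) → GQ} {W : ℕ}
    (h : ∀ 𝔟 : Ideal (𝓞 K), IsCoprime 𝔟 𝔤 ↔ IsCoprime 𝔟 𝔤') (hS : StarkCubic ι K H 𝔤 art W) :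
    StarkCubic ι K H 𝔤' art W := by
  obtain ⟨Z, ε, h1, h2, h3, h4⟩ := hS
  refine ⟨Z, ε, h1, h2, ?_, h4⟩
  have h5 : cnt K H 𝔤' art = cnt K H 𝔤 art := by
    funext σ n
    exact (cnt_modulus art h σ n).symm
  rw [h5]
  exact h3

lemma starkCubic_prime {ι : Qbar →+* ℂ} {K H M : IntermediateField ℚ Qbar} [NumberField K]
    {𝔪 𝔤 P : Ideal (𝓞 K)} {art : Ideal (𝓞 K) → GQ} (hart : IsArtin K M 𝔪 art) (hLM : H ≤ M)
    (hKH : K ≤ H) (hc : ∀ 𝔟 : Ideal (𝓞 K), IsCoprime 𝔟 𝔤 → IsCoprime 𝔟 𝔪) (hP : P.IsPrime)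
    (hP0 : P ≠ ⊥) (hPg : IsCoprime P 𝔤) {W : ℕ} (hW : 0 < W) (hS : StarkCubic ι K H 𝔤 art W) :
    StarkCubic ι K H (𝔤 * P) art W := by
  obtain ⟨Z, ε, h1, h2, h3, h4, h5, h6, h7⟩ := hS
  have hρ : Fixes K (art P)⁻¹ := Fixes.inv (hart.fix P (hc P hPg))
  have hl := limit_prime hart hLM hc hP hP0 hPg hW h2 h3 h7
  set ρ : GQ := (art P)⁻¹ with hρdef
  have hρ0 : ρ ε ≠ 0 := by simpa using h2
  have hρH : ρ ε ∈ H := by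
    apply mem_of_fixed
    intro σ hσ
    rw [comm_of_root hW h7 (hσ.mono hKH) hρ, hσ ε h1]
  refine ⟨_, ε / ρ ε, H.div_mem h1 hρH, div_ne_zero h2 hρ0, hl, ?_, ?_, ?_,
    abelianRoot_div hW h2 h7 hρ⟩
  · rw [div_eq_mul_inv, ← map_inv₀]
    exact h4.mul (h5.map (ρ : Qbar →+* Qbar).toIntAlgHom)
  · rw [inv_div, div_eq_mul_inv]
    exact (h4.map (ρ : Qbar →+* Qbar).toIntAlgHom).mul h5
  · intro w hw
    have h8 : ‖(w.comp (ρ : Qbar →+* Qbar)) ε‖ = 1 := by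
      refine h6 _ fun x hx => ?_
      have h9 : (w.comp (ρ : Qbar →+* Qbar)) x = w x := congrArg w (hρ x hx)
      rw [h9]
      exact hw x hx
    have h9 : (w.comp (ρ : Qbar →+* Qbar)) ε = w (ρ ε) := rfl
    rw [h9] at h8
    rw [map_div₀, norm_div, h6 w hw, h8, div_one]

lemma starkCubic_mul {ι : Qbar →+* ℂ} {K H M : IntermediateField ℚ Qbar} [NumberField K]
    {𝔪 : Ideal (𝓞 K)} {art : Ideal (𝓞 K) → GQ} (hart : IsArtin K M 𝔪 art) (hLM : H ≤ M)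
    (hKH : K ≤ H) {W : ℕ} (hW : 0 < W) (hS : StarkCubic ι K H 𝔪 art W) (𝔟 : Ideal (𝓞 K)) :
    𝔟 ≠ 0 → StarkCubic ι K H (𝔪 * 𝔟) art W := by
  induction 𝔟 using UniqueFactorizationMonoid.induction_on_prime with
  | h₁ => exact fun h => absurd rfl h
  | h₂ 𝔟 hu =>
    intro _
    have h1 : 𝔟 = 1 := by
      rw [Ideal.isUnit_iff] at hu
      rw [hu, Ideal.one_eq_top]
    rw [h1, mul_one]
    exact hS
  | h₃ 𝔟 P h0 hp ih =>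
    intro _
    have ih := ih h0
    have hP : P.IsPrime := Ideal.isPrime_of_prime hp
    have hP0 : P ≠ ⊥ := hp.ne_zero
    have e : 𝔪 * (P * 𝔟) = 𝔪 * 𝔟 * P := by rw [mul_comm P, mul_assoc]
    rw [e]
    by_cases hPg : IsCoprime P (𝔪 * 𝔟)
    · exact starkCubic_prime hart hLM hKH (fun 𝔠 h => (IsCoprime.mul_right_iff.1 h).1) hP hP0 hPg
        hW ih
    · refine starkCubic_modulus (fun 𝔠 => ?_) ih
      rw [IsCoprime.mul_right_iff (x := 𝔠) (y := 𝔪 * 𝔟) (z := P)]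
      refine ⟨fun h => ⟨h, ?_⟩, fun h => h.1⟩
      rw [isCoprime_comm, isCoprime_prime_iff hP hP0, not_not] at hPg
      rw [Ideal.isCoprime_iff_exists] at h ⊢
      obtain ⟨i, hi, j, hj, hij⟩ := h
      exact ⟨i, hi, j, hPg hj, hij⟩

/-- **Stark units over complex cubic fields, arbitrary moduli.** -/
theorem stark_cubic_general (ι : Qbar →+* ℂ) (K k k' : IntermediateField ℚ Qbar) [NumberField K]
    [NumberField k] (hK : finrank ℚ K = 3) (hk : finrank ℚ k = 2) (hN : Normal ℚ ↥(K ⊔ k))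
    (hι : ∃ x ∈ K, (ι x).im ≠ 0) (f : ℕ) (hf : 2 ≤ f) (ζ : Qbar) (hζ : IsPrimitiveRoot ζ f)
    (hk' : k' ≤ ℚ⟮ζ⟯) (𝔪 : Ideal (𝓞 k)) (h𝔪 : 𝔪 ≤ Ideal.span {(f : 𝓞 k)})
    (art : Ideal (𝓞 k) → GQ) (hart : IsArtin k (K ⊔ k ⊔ ℚ⟮ζ⟯) 𝔪 art)
    (artK : Ideal (𝓞 K) → GQ)
    (hartK : IsArtin K (K ⊔ ℚ⟮ζ⟯) (Ideal.span {(f : 𝓞 K)}) artK)
    (hA : ArtinFactorization K k f 𝔪 art) (W' : ℕ) (hW' : IsTorsionOrder (K ⊔ k ⊔ k') W')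
    (hS : StarkImQuad ι k (K ⊔ k ⊔ k') 𝔪 art W') (W : ℕ) (hW : IsTorsionOrder (K ⊔ k') W)
    (𝔣 : Ideal (𝓞 K)) (h𝔣0 : 𝔣 ≠ ⊥)
    (h𝔣 : ∀ P : Ideal (𝓞 K), P.IsPrime → (f : 𝓞 K) ∈ P → 𝔣 ≤ P) :
    StarkCubic ι K (K ⊔ k') 𝔣 artK W := by
  have h1 := stark_cubic ι K k k' hK hk hN hι f hf ζ hζ hk' 𝔪 h𝔪 art hart artK hartK hA W' hW' hS
    W hW
  have h2 := starkCubic_mul hartK (sup_le_sup_left hk' K) le_sup_left hW.1 h1 𝔣 h𝔣0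
  refine starkCubic_modulus (fun 𝔟 => ?_) h2
  rw [IsCoprime.mul_right_iff]
  refine ⟨fun h => h.2, fun h => ⟨?_, h⟩⟩
  rw [Ideal.isCoprime_iff_sup_eq]
  by_contra hne
  obtain ⟨P, hP, hle⟩ := Ideal.exists_le_maximal _ hne
  have hf' : (f : 𝓞 K) ∈ P := hle ((le_sup_right : _ ≤ 𝔟 ⊔ Ideal.span {(f : 𝓞 K)})
    (Ideal.mem_span_singleton_self _))
  apply hP.ne_top
  rw [Ideal.eq_top_iff_one]
  obtain ⟨i, hi, j, hj, hij⟩ := Ideal.isCoprime_iff_exists.1 h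
  rw [← hij]
  exact P.add_mem (hle ((le_sup_left : 𝔟 ≤ 𝔟 ⊔ _) hi)) (h𝔣 P hP.isPrime hf' hj)

end Pool.Agent.K4H33.SK
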