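import Pool.Agent.K4H33.SK.Defs

/-! Galois theory of the normal closure of a complex cubic field. -/

set_option autoImplicit false
set_option linter.style.haveILetI false

namespace Pool.Agent.K4H33.SK
open NumberField Module

instance instAlgQ : Algebra.IsAlgebraic ℚ Qbar := AlgebraicClosure.isAlgebraic ℚ
instance instACQ : IsAlgClosure ℚ Qbar := ⟨inferInstance, inferInstance⟩

lemma fixes_iff {F : IntermediateField ℚ Qbar} {σ : GQ} : Fixes F σ ↔ σ ∈ F.fixingSubgroup :=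
  (IntermediateField.mem_fixingSubgroup_iff _ _).symm

lemma mem_of_fixed (F : IntermediateField ℚ Qbar) {x : Qbar}
    (h : ∀ σ : GQ, Fixes F σ → σ x = x) : x ∈ F := by
  rw [← InfiniteGalois.fixedField_fixingSubgroup F, IntermediateField.mem_fixedField_iff]
  intro σ hσ
  exact h σ (fixes_iff.2 hσ)

lemma Fixes.one (F : IntermediateField ℚ Qbar) : Fixes F 1 := fun _ _ => rfl

lemma Fixes.mul {F : IntermediateField ℚ Qbar} {σ τ : GQ} (h : Fixes F σ) (h' : Fixes F τ) :
    Fixes F (σ * τ) := by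
  rw [fixes_iff] at *
  exact mul_mem h h'

lemma Fixes.inv {F : IntermediateField ℚ Qbar} {σ : GQ} (h : Fixes F σ) : Fixes F σ⁻¹ := by
  rw [fixes_iff] at *
  exact inv_mem h

lemma Fixes.pow {F : IntermediateField ℚ Qbar} {σ : GQ} (h : Fixes F σ) (n : ℕ) :
    Fixes F (σ ^ n) := by
  rw [fixes_iff] at *
  exact pow_mem h n

lemma Fixes.mono {F F' : IntermediateField ℚ Qbar} (hF : F ≤ F') {σ : GQ} (h : Fixes F' σ) :
    Fixes F σ := fun x hx => h x (hF hx)

lemma fixes_sup {F F' : IntermediateField ℚ Qbar} {σ : GQ} :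
    Fixes (F ⊔ F') σ ↔ Fixes F σ ∧ Fixes F' σ := by
  rw [fixes_iff, fixes_iff, fixes_iff, IntermediateField.fixingSubgroup_sup, Subgroup.mem_inf]

lemma agree_iff {F : IntermediateField ℚ Qbar} {σ τ : GQ} :
    (∀ x ∈ F, σ x = τ x) ↔ Fixes F (τ⁻¹ * σ) := by
  refine forall₂_congr fun x _ => ?_
  rw [AlgEquiv.mul_apply, AlgEquiv.aut_inv, AlgEquiv.symm_apply_eq]

lemma agree_sup {F F' : IntermediateField ℚ Qbar} {σ τ : GQ} (h : ∀ x ∈ F, σ x = τ x)
    (h' : ∀ x ∈ F', σ x = τ x) : ∀ x ∈ F ⊔ F', σ x = τ x := by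
  rw [agree_iff] at *
  exact fixes_sup.2 ⟨h, h'⟩

lemma normal_mem {F : IntermediateField ℚ Qbar} (hF : Normal ℚ F) (g : GQ) {x : Qbar}
    (hx : x ∈ F) : g x ∈ F := by
  have h := AlgEquiv.restrictNormal_commutes g F ⟨x, hx⟩
  have h2 : g x = ((g.restrictNormal F) ⟨x, hx⟩ : F) := h.symm
  rw [h2]
  exact Subtype.mem _

lemma Fixes.conj {F : IntermediateField ℚ Qbar} (hF : Normal ℚ F) {σ : GQ} (h : Fixes F σ)
    (g : GQ) : Fixes F (g * σ * g⁻¹) := by
  intro x hx
  rw [AlgEquiv.mul_apply, AlgEquiv.mul_apply, h _ (normal_mem hF _ hx), AlgEquiv.aut_inv,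
    AlgEquiv.apply_symm_apply]

lemma Fixes.conj' {F : IntermediateField ℚ Qbar} (hF : Normal ℚ F) {σ : GQ} (h : Fixes F σ)
    (g : GQ) : Fixes F (g⁻¹ * σ * g) := by
  simpa using h.conj hF g⁻¹

/-- Any embedding is the given one composed with an automorphism. -/
lemma exists_lift (ι w : Qbar →+* ℂ) : ∃ τ : GQ, ∀ x, w x = ι (τ x) := by
  letI : Algebra Qbar ℂ := ι.toAlgebra
  haveI : IsScalarTower ℚ Qbar ℂ := IsScalarTower.of_algebraMap_eq' (by ext; simp)
  let w' : Qbar →ₐ[ℚ] ℂ := w.toRatAlgHom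
  have h := (Normal.algHomEquivAut ℚ ℂ Qbar).symm_apply_apply w'
  refine ⟨Normal.algHomEquivAut ℚ ℂ Qbar w', fun x => ?_⟩
  have h2 := DFunLike.congr_fun h x
  exact h2.symm

lemma exists_conj (ι : Qbar →+* ℂ) : ∃ c : GQ, ∀ x, ι (c x) = (starRingEnd ℂ) (ι x) := by
  obtain ⟨c, hc⟩ := exists_lift ι ((starRingEnd ℂ).comp ι)
  exact ⟨c, fun x => (hc x).symm⟩

lemma exists_real (ι : Qbar →+* ℂ) (K : IntermediateField ℚ Qbar) [NumberField K]
    (hK : finrank ℚ K = 3) : ∃ σ : GQ, ∀ x ∈ K, (ι (σ x)).im = 0 := by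
  have h1 : 0 < InfinitePlace.nrRealPlaces K :=
    InfinitePlace.nrRealPlaces_pos_of_odd_finrank (by rw [hK]; decide)
  have h1' : Nonempty {w : InfinitePlace K // w.IsReal} := by
    classical
    exact Fintype.card_pos_iff.1 h1
  obtain ⟨v, hv⟩ := h1'
  rw [InfinitePlace.isReal_iff] at hv
  set φ := v.embedding with hφ
  letI : Algebra K ℂ := φ.toAlgebra
  haveI : Algebra.IsAlgebraic K Qbar := Algebra.IsAlgebraic.tower_top (K := ℚ) K
  let w : Qbar →ₐ[K] ℂ := IsAlgClosed.lift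
  obtain ⟨σ, hσ⟩ := exists_lift ι w.toRingHom
  refine ⟨σ, fun x hx => ?_⟩
  rw [← hσ]
  have h2 : w.toRingHom x = φ ⟨x, hx⟩ := w.commutes ⟨x, hx⟩
  rw [h2]
  have h3 := RingHom.congr_fun hv ⟨x, hx⟩
  rw [ComplexEmbedding.conjugate_coe_eq] at h3
  exact Complex.conj_eq_iff_im.1 h3

lemma quad_normal {k : IntermediateField ℚ Qbar} (hk : finrank ℚ k = 2) : Normal ℚ k := by
  haveI : Algebra.IsQuadraticExtension ℚ k := ⟨hk⟩
  exact Algebra.IsQuadraticExtension.normal ℚ k

lemma quad {k : IntermediateField ℚ Qbar} (hk : finrank ℚ k = 2) {σ τ : GQ}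
    (hσ : ¬ Fixes k σ) (hτ : ¬ Fixes k τ) : Fixes k (σ * τ) := by
  haveI := quad_normal hk
  haveI : FiniteDimensional ℚ k := FiniteDimensional.of_finrank_pos (by rw [hk]; norm_num)
  haveI : IsGalois ℚ k := ⟨⟩
  have h1 : Nat.card (k ≃ₐ[ℚ] k) = 2 := by rw [IsGalois.card_aut_eq_finrank, hk]
  have h2 : ∀ g : GQ, Fixes k g ↔ g.restrictNormalHom k = 1 := by
    intro g
    constructor
    · intro h
      ext x
      have h3 := AlgEquiv.restrictNormal_commutes g k x
      exact h3.trans (h _ x.2)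
    · intro h x hx
      have h3 := AlgEquiv.restrictNormal_commutes g k ⟨x, hx⟩
      have h4 : g.restrictNormal k = 1 := h
      rw [h4] at h3
      exact h3.symm
  rw [h2] at *
  rw [map_mul]
  generalize (AlgEquiv.restrictNormalHom k) σ = a at *
  generalize (AlgEquiv.restrictNormalHom k) τ = b at *
  haveI : Fact (Nat.Prime 2) := ⟨Nat.prime_two⟩
  have h5 := mem_zpowers_of_prime_card h1 (g' := b) hσ
  have h6 : b ∈ Submonoid.powers a := by
    haveI : Finite (k ≃ₐ[ℚ] k) := Nat.finite_of_card_ne_zero (by rw [h1]; norm_num)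
    exact mem_powers_iff_mem_zpowers.2 h5
  have h7 : a ^ 2 = 1 := by rw [← h1]; exact pow_card_eq_one'
  obtain ⟨n, hn⟩ := h6
  have hn : a ^ n = b := hn
  rcases Nat.even_or_odd' n with ⟨m, rfl | rfl⟩
  · rw [pow_mul, h7, one_pow] at hn
    exact absurd hn.symm hτ
  · rw [pow_add, pow_mul, h7, one_pow, one_mul, pow_one] at hn
    rw [← hn, ← pow_two, h7]

section Cubic

variable {K k : IntermediateField ℚ Qbar}

/-- The group of the normal closure over the quadratic field has order three. -/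
lemma cubic (hK : finrank ℚ K = 3) (hk : finrank ℚ k = 2) (hN : Normal ℚ ↥(K ⊔ k)) {σ τ : GQ}
    (hσ : Fixes k σ) (hσK : ¬ Fixes K σ) (hτ : Fixes k τ) :
    Fixes (K ⊔ k) (σ ^ 3) ∧ ∃ j < 3, ∀ x ∈ K ⊔ k, τ x = (σ ^ j) x := by
  haveI : FiniteDimensional ℚ k := FiniteDimensional.of_finrank_pos (by rw [hk]; norm_num)
  haveI : FiniteDimensional ℚ K := FiniteDimensional.of_finrank_pos (by rw [hK]; norm_num)
  have hle : k ≤ K ⊔ k := le_sup_right
  have hd : finrank ℚ ↥(K ⊔ k) = 6 := by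
    have h := (IntermediateField.LinearDisjoint.of_finrank_coprime (A := K) (L := k)
      (by rw [hK, hk]; norm_num)).finrank_sup
    rw [h, hK, hk]
  let M : IntermediateField k Qbar := IntermediateField.extendScalars hle
  haveI i1 : FiniteDimensional ℚ ↥(K ⊔ k) := inferInstance
  haveI i3 : Normal ℚ M := hN
  haveI i4 : FiniteDimensional ℚ M := i1
  haveI i5 : IsScalarTower ℚ k M := inferInstance
  haveI i6 : Normal k M := Normal.tower_top_of_normal ℚ k M
  haveI i7 : FiniteDimensional k M := FiniteDimensional.right ℚ k M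
  have hd2 : finrank k M = 3 := by
    have h1 := finrank_mul_finrank ℚ k M
    have h2 : finrank ℚ M = 6 := hd
    rw [h2, hk] at h1
    omega
  haveI i8 : IsGalois k M := ⟨⟩
  have hc : Nat.card (M ≃ₐ[k] M) = 3 := by rw [IsGalois.card_aut_eq_finrank, hd2]
  haveI : Fact (Nat.Prime 3) := ⟨Nat.prime_three⟩
  haveI i9 : Finite (M ≃ₐ[k] M) := Nat.finite_of_card_ne_zero (by rw [hc]; norm_num)
  let r : k.fixingSubgroup →* (M ≃ₐ[k] M) :=
    (AlgEquiv.restrictNormalHom M).comp (IntermediateField.fixingSubgroupEquiv k).toMonoidHom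
  have hr : ∀ (g : k.fixingSubgroup) (x : M), ((r g x : M) : Qbar) = (g : GQ) x := by
    intro g x
    exact AlgEquiv.restrictNormal_commutes (IntermediateField.fixingSubgroupEquiv k g) M x
  have h1 : ∀ g g' : k.fixingSubgroup, r g = r g' → ∀ x ∈ K ⊔ k, (g : GQ) x = (g' : GQ) x := by
    intro g g' h x hx
    have e1 := hr g ⟨x, hx⟩
    have e2 := hr g' ⟨x, hx⟩
    rw [h] at e1
    exact e1.symm.trans e2
  set s : k.fixingSubgroup := ⟨σ, fixes_iff.1 hσ⟩ with hs
  set t : k.fixingSubgroup := ⟨τ, fixes_iff.1 hτ⟩ with ht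
  have hs1 : r s ≠ 1 := by
    intro h
    apply hσK
    intro x hx
    rw [← map_one r] at h
    exact h1 s 1 h x (le_sup_left (α := IntermediateField ℚ Qbar) hx)
  have h3 : (r s) ^ 3 = 1 := by rw [← hc]; exact pow_card_eq_one'
  constructor
  · intro x hx
    rw [← map_pow, ← map_one r] at h3
    exact h1 _ 1 h3 x hx
  · have h5 := mem_zpowers_of_prime_card hc (g' := r t) hs1
    have h6 : r t ∈ Submonoid.powers (r s) := mem_powers_iff_mem_zpowers.2 h5
    obtain ⟨n, hn⟩ := h6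
    have hn : (r s) ^ n = r t := hn
    refine ⟨n % 3, Nat.mod_lt _ (by norm_num), ?_⟩
    have h7 : (r s) ^ (n % 3) = r t := by
      rw [← hn]
      conv_rhs => rw [← Nat.div_add_mod n 3, pow_add, pow_mul, h3, one_pow, one_mul]
    rw [← map_pow] at h7
    intro x hx
    exact (h1 _ _ h7 x hx).symm

end Cubic

end Pool.Agent.K4H33.SK
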