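import Mathlib

/-! The value of the Hurwitz zeta function at zero. -/

set_option autoImplicit false

namespace Pool.Agent.K4H33.SK
open Complex Filter Topology Set

/-- the general term, multiplied by `s - 1`, with the trapezoidal correction -/
noncomputable def G (x : ℝ) (n : ℕ) (s : ℂ) : ℂ :=
  ((n + 1 + x : ℝ) : ℂ) ^ (1 - s) - ((n + x : ℝ) : ℂ) ^ (1 - s) -
    (1 - s) * (1 / 2) * (((n + x : ℝ) : ℂ) ^ (-s) + ((n + 1 + x : ℝ) : ℂ) ^ (-s))

lemma G_bound (x : ℝ) (hx : 0 < x) (n : ℕ) (s : ℂ) (hs : -1 < s.re) :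
    ‖G x n s‖ ≤ ‖1 - s‖ * (‖s‖ * ‖s + 1‖ * (n + x) ^ (-s.re - 2)) := by
  set y : ℝ := n + x with hy
  have hy0 : 0 < y := by positivity
  have hder : ∀ (r : ℂ) (t : ℝ), 0 ≤ t → HasDerivAt (fun t : ℝ => ((y + t : ℝ) : ℂ) ^ r)
      (r * ((y + t : ℝ) : ℂ) ^ (r - 1)) t := by
    intro r t ht
    have h1 : HasDerivAt (fun t : ℝ => ((y + t : ℝ) : ℂ)) 1 t := by
      have := ((hasDerivAt_id t).const_add y).ofReal_comp
      simpa using this
    have h2 : ((y + t : ℝ) : ℂ) ∈ Complex.slitPlane := by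
      rw [Complex.ofReal_mem_slitPlane]; linarith
    have h3 : HasDerivAt (fun z : ℂ => z ^ r) (r * ((y + t : ℝ) : ℂ) ^ (r - 1)) ((y + t : ℝ) : ℂ) := by
      simpa using (hasDerivAt_id ((y + t : ℝ) : ℂ)).cpow_const (c := r) h2
    have h4 := HasDerivAt.comp t h3 h1
    rw [mul_one] at h4
    exact h4
  set ψ : ℝ → ℂ := fun t => (1 / 2) * (((y + t : ℝ) : ℂ) ^ (-s) - (y : ℂ) ^ (-s)) +
    s * (1 / 2) * ((t : ℂ) * ((y + t : ℝ) : ℂ) ^ (-s - 1)) with hψ
  set φ : ℝ → ℂ := fun t => ((y + t : ℝ) : ℂ) ^ (1 - s) -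
    (1 - s) * (1 / 2) * ((t : ℂ) * ((y : ℂ) ^ (-s) + ((y + t : ℝ) : ℂ) ^ (-s))) with hφ
  have hid : ∀ t : ℝ, HasDerivAt (fun t : ℝ => (t : ℂ)) 1 t := fun t => by
    simpa using (hasDerivAt_id t).ofReal_comp
  have hψd : ∀ t : ℝ, 0 ≤ t →
      HasDerivAt ψ (-(s * (s + 1) * (1 / 2)) * ((t : ℂ) * ((y + t : ℝ) : ℂ) ^ (-s - 2))) t := by
    intro t ht
    have h1 := ((hder (-s) t ht).sub_const ((y : ℂ) ^ (-s))).const_mul (1 / 2 : ℂ)
    have h2 := ((hid t).mul (hder (-s - 1) t ht)).const_mul (s * (1 / 2))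
    refine (h1.add h2).congr_deriv ?_
    rw [show -s - 1 - 1 = -s - 2 by ring]
    ring
  have hφd : ∀ t : ℝ, 0 ≤ t → HasDerivAt φ ((1 - s) * ψ t) t := by
    intro t ht
    have h1 := hder (1 - s) t ht
    have h2 := ((hid t).mul ((hder (-s) t ht).const_add ((y : ℂ) ^ (-s)))).const_mul
      ((1 - s) * (1 / 2))
    refine (h1.sub h2).congr_deriv ?_
    simp only [hψ]
    rw [show (1 : ℂ) - s - 1 = -s by ring]
    ring
  set C : ℝ := ‖s‖ * ‖s + 1‖ * y ^ (-s.re - 2) with hC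
  have hC0 : 0 ≤ C := by positivity
  have hψb : ∀ t ∈ Icc (0 : ℝ) 1, ‖ψ t‖ ≤ C := by
    intro t ht
    have h1 := (convex_Icc (0 : ℝ) 1).norm_image_sub_le_of_norm_hasDerivWithin_le
      (f := ψ) (C := C) (x := 0) (y := t)
      (f' := fun t => -(s * (s + 1) * (1 / 2)) * ((t : ℂ) * ((y + t : ℝ) : ℂ) ^ (-s - 2)))
      (fun u hu => (hψd u hu.1).hasDerivWithinAt) (fun u hu => by
        rw [norm_mul, norm_neg, norm_mul, norm_mul, norm_mul,
          norm_cpow_eq_rpow_re_of_pos (by linarith [hu.1] : 0 < y + u), hC]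
        have e : (-s - 2).re = -s.re - 2 := by simp
        rw [e]
        have e2 : ‖(1 / 2 : ℂ)‖ = 1 / 2 := by norm_num
        have e3 : ‖(u : ℂ)‖ ≤ 1 := by
          rw [Complex.norm_real, Real.norm_eq_abs, abs_of_nonneg hu.1]; exact hu.2
        rw [e2]
        have e4 : (y + u) ^ (-s.re - 2) ≤ y ^ (-s.re - 2) :=
          Real.rpow_le_rpow_of_nonpos hy0 (by linarith [hu.1]) (by linarith)
        have e5 : (0 : ℝ) ≤ (y + u) ^ (-s.re - 2) :=
          Real.rpow_nonneg (by linarith [hu.1]) _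
        have e6 : ‖(u : ℂ)‖ * (y + u) ^ (-s.re - 2) ≤ y ^ (-s.re - 2) :=
          (mul_le_mul e3 e4 e5 zero_le_one).trans (by rw [one_mul])
        calc ‖s‖ * ‖s + 1‖ * (1 / 2) * (‖(u : ℂ)‖ * (y + u) ^ (-s.re - 2))
            ≤ ‖s‖ * ‖s + 1‖ * 1 * (y ^ (-s.re - 2)) := by
              refine mul_le_mul ?_ e6 (by positivity) (by positivity)
              exact mul_le_mul_of_nonneg_left (by norm_num) (by positivity)
          _ = _ := by rw [mul_one])
      (by constructor <;> norm_num) ht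
    have e0 : ψ 0 = 0 := by simp [hψ]
    rw [e0, sub_zero, sub_zero, Real.norm_eq_abs, abs_of_nonneg ht.1] at h1
    refine h1.trans ?_
    nlinarith [ht.2]
  have h1 := (convex_Icc (0 : ℝ) 1).norm_image_sub_le_of_norm_hasDerivWithin_le
      (f := φ) (C := ‖1 - s‖ * C) (x := 0) (y := 1)
      (f' := fun t => (1 - s) * ψ t)
      (fun u hu => (hφd u hu.1).hasDerivWithinAt) (fun u hu => by
        rw [norm_mul]
        exact mul_le_mul_of_nonneg_left (hψb u hu) (norm_nonneg _))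
      (by constructor <;> norm_num) (by constructor <;> norm_num)
  have e1 : φ 1 - φ 0 = G x n s := by
    simp only [hφ, G, add_zero, ← hy]
    have e2 : (n + 1 + x : ℝ) = y + 1 := by rw [hy]; ring
    rw [e2]
    push_cast
    ring
  rw [e1] at h1
  simpa using h1

lemma G_diff (x : ℝ) (hx : 0 < x) (n : ℕ) : Differentiable ℂ (G x n) := by
  unfold G
  have h1 : ((n + x : ℝ) : ℂ) ≠ 0 := by
    have : (0 : ℝ) < n + x := by positivity
    exact_mod_cast this.ne'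
  have h2 : ((n + 1 + x : ℝ) : ℂ) ≠ 0 := by
    have : (0 : ℝ) < n + 1 + x := by positivity
    exact_mod_cast this.ne'
  have a1 : Differentiable ℂ (fun s : ℂ => ((n + 1 + x : ℝ) : ℂ) ^ (1 - s)) :=
    (differentiable_id.const_sub 1).const_cpow (Or.inl h2)
  have a2 : Differentiable ℂ (fun s : ℂ => ((n + x : ℝ) : ℂ) ^ (1 - s)) :=
    (differentiable_id.const_sub 1).const_cpow (Or.inl h1)
  have a3 : Differentiable ℂ (fun s : ℂ => ((n + x : ℝ) : ℂ) ^ (-s)) :=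
    (differentiable_id.neg).const_cpow (Or.inl h1)
  have a4 : Differentiable ℂ (fun s : ℂ => ((n + 1 + x : ℝ) : ℂ) ^ (-s)) :=
    (differentiable_id.neg).const_cpow (Or.inl h2)
  exact (a1.sub a2).sub (Differentiable.mul (by fun_prop) (a3.add a4))

/-- the region -/
def U : Set ℂ := {s : ℂ | -(1 / 2) < s.re ∧ ‖s‖ < 5}

lemma U_open : IsOpen U := by
  apply IsOpen.inter
  · exact isOpen_lt continuous_const Complex.continuous_re
  · exact isOpen_lt continuous_norm continuous_const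

/-- uniform bound on the region -/
noncomputable def ub (x : ℝ) (n : ℕ) : ℝ :=
  if n = 0 then 180 * (x ^ (-(7 : ℝ)) + 1) else 180 * (n : ℝ) ^ (-(3 / 2 : ℝ))

lemma ub_summable (x : ℝ) : Summable (ub x) := by
  have h1 : Summable (fun n : ℕ => 180 * (n : ℝ) ^ (-(3 / 2 : ℝ))) :=
    (Real.summable_nat_rpow.2 (by norm_num)).mul_left 180
  rw [← summable_nat_add_iff 1] at h1 ⊢
  refine h1.congr fun n => ?_
  simp [ub]

lemma G_ub (x : ℝ) (hx : 0 < x) (hx1 : x ≤ 1) (n : ℕ) (s : ℂ) (hs : s ∈ U) :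
    ‖G x n s‖ ≤ ub x n := by
  obtain ⟨h1, h2⟩ := hs
  have h0 : -1 < s.re := by linarith
  refine (G_bound x hx n s h0).trans ?_
  have h3 : ‖1 - s‖ ≤ 6 := by
    calc ‖1 - s‖ ≤ ‖(1 : ℂ)‖ + ‖s‖ := norm_sub_le _ _
      _ ≤ 6 := by rw [norm_one]; linarith
  have h3' : ‖s + 1‖ ≤ 6 := by
    calc ‖s + 1‖ ≤ ‖s‖ + ‖(1 : ℂ)‖ := norm_add_le _ _
      _ ≤ 6 := by rw [norm_one]; linarith
  have h4 : ‖s‖ * ‖s + 1‖ ≤ 5 * 6 :=
    mul_le_mul h2.le h3' (norm_nonneg _) (by norm_num)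
  have h5 : ‖1 - s‖ * (‖s‖ * ‖s + 1‖) ≤ 6 * (5 * 6) :=
    mul_le_mul h3 h4 (by positivity) (by norm_num)
  have hre : s.re < 5 := lt_of_le_of_lt (Complex.re_le_norm s) h2
  rw [← mul_assoc]
  unfold ub
  split_ifs with hn
  · subst hn
    have h6 : ((0 : ℕ) + x) ^ (-s.re - 2) ≤ x ^ (-(7 : ℝ)) := by
      rw [Nat.cast_zero, zero_add]
      exact Real.rpow_le_rpow_of_exponent_ge hx hx1 (by linarith)
    have h7 : (0 : ℝ) ≤ ((0 : ℕ) + x) ^ (-s.re - 2) := by positivity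
    calc _ ≤ 6 * (5 * 6) * ((0 : ℕ) + x) ^ (-s.re - 2) := mul_le_mul_of_nonneg_right h5 h7
      _ ≤ 180 * (x ^ (-(7 : ℝ)) + 1) := by linarith
  · have hn1 : (1 : ℝ) ≤ n := by exact_mod_cast Nat.one_le_iff_ne_zero.2 hn
    have h6 : ((n : ℝ) + x) ^ (-s.re - 2) ≤ (n : ℝ) ^ (-(3 / 2 : ℝ)) := by
      calc ((n : ℝ) + x) ^ (-s.re - 2) ≤ (n : ℝ) ^ (-s.re - 2) :=
            Real.rpow_le_rpow_of_nonpos (by linarith) (by linarith) (by linarith)
        _ ≤ _ := Real.rpow_le_rpow_of_exponent_le hn1 (by linarith)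
    have h7 : (0 : ℝ) ≤ ((n : ℝ) + x) ^ (-s.re - 2) := by positivity
    calc _ ≤ 6 * (5 * 6) * ((n : ℝ) + x) ^ (-s.re - 2) := mul_le_mul_of_nonneg_right h5 h7
      _ ≤ _ := by linarith

/-- the sum -/
noncomputable def SG (x : ℝ) (s : ℂ) : ℂ := ∑' n, G x n s

lemma SG_diff (x : ℝ) (hx : 0 < x) (hx1 : x ≤ 1) : DifferentiableOn ℂ (SG x) U :=
  differentiableOn_tsum_of_summable_norm (ub_summable x)
    (fun n => (G_diff x hx n).differentiableOn) U_open (fun n s hs => G_ub x hx hx1 n s hs)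

lemma SG_summable (x : ℝ) (hx : 0 < x) (hx1 : x ≤ 1) {s : ℂ} (hs : s ∈ U) :
    Summable (fun n => G x n s) :=
  Summable.of_norm_bounded (ub_summable x) (fun n => G_ub x hx hx1 n s hs)

lemma sum_G (x : ℝ) (s : ℂ) (N : ℕ) : ∑ n ∈ Finset.range N, G x n s =
    (s - 1) * ∑ n ∈ Finset.range N, ((n + x : ℝ) : ℂ) ^ (-s) + ((N + x : ℝ) : ℂ) ^ (1 - s) -
      (x : ℂ) ^ (1 - s) + (1 - s) * (1 / 2) * ((x : ℂ) ^ (-s) - ((N + x : ℝ) : ℂ) ^ (-s)) := by
  induction N with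
  | zero => simp
  | succ N ih =>
    rw [Finset.sum_range_succ, ih, Finset.sum_range_succ, G]
    have e : ((N + 1 : ℕ) + x : ℝ) = N + 1 + x := by push_cast; ring
    rw [e]
    ring

lemma SG_right (x : ℝ) (hx : 0 < x) (hx1 : x ≤ 1) {s : ℂ} (hs : s ∈ U) (h1 : 1 < s.re) :
    SG x s = (s - 1) * HurwitzZeta.hurwitzZeta (x : UnitAddCircle) s - (x : ℂ) ^ (1 - s) +
      (1 - s) * (1 / 2) * (x : ℂ) ^ (-s) := by
  have hsum := (SG_summable x hx hx1 hs).hasSum.tendsto_sum_nat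
  have hz := HurwitzZeta.hasSum_hurwitzZeta_of_one_lt_re (a := x) ⟨hx.le, hx1⟩ h1
  have hz' := hz.tendsto_sum_nat
  have e1 : ∀ N : ℕ, ∑ n ∈ Finset.range N, 1 / ((n : ℂ) + x) ^ s =
      ∑ n ∈ Finset.range N, ((n + x : ℝ) : ℂ) ^ (-s) := by
    intro N
    apply Finset.sum_congr rfl
    intro n _
    rw [Complex.cpow_neg, one_div]
    push_cast
    rfl
  simp_rw [e1] at hz'
  have hlim : ∀ r : ℂ, r.re < 0 → Tendsto (fun N : ℕ => ((N + x : ℝ) : ℂ) ^ r) atTop (𝓝 0) := by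
    intro r hr
    rw [tendsto_zero_iff_norm_tendsto_zero]
    have e2 : ∀ N : ℕ, ‖((N + x : ℝ) : ℂ) ^ r‖ = (N + x : ℝ) ^ (-(-r.re)) := by
      intro N
      rw [norm_cpow_eq_rpow_re_of_pos (by positivity), neg_neg]
    simp_rw [e2]
    exact (tendsto_rpow_neg_atTop (by linarith)).comp
      (tendsto_atTop_add_const_right _ _ tendsto_natCast_atTop_atTop)
  have l1 := hlim (1 - s) (by simp; linarith)
  have l2 := hlim (-s) (by simp; linarith)
  have h3 : Tendsto (fun N : ℕ => ∑ n ∈ Finset.range N, G x n s) atTop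
      (𝓝 ((s - 1) * HurwitzZeta.hurwitzZeta (x : UnitAddCircle) s + 0 - (x : ℂ) ^ (1 - s) +
        (1 - s) * (1 / 2) * ((x : ℂ) ^ (-s) - 0))) := by
    have h4 := (((hz'.const_mul (s - 1)).add l1).sub_const ((x : ℂ) ^ (1 - s))).add
      ((l2.const_sub ((x : ℂ) ^ (-s))).const_mul ((1 - s) * (1 / 2)))
    refine h4.congr fun N => ?_
    rw [sum_G]
  rw [add_zero, sub_zero] at h3
  exact tendsto_nhds_unique hsum h3

/-- **The value of the Hurwitz zeta function at zero.** -/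
theorem hurwitzZeta_at_zero (x : ℝ) (hx : 0 < x) (hx1 : x ≤ 1) :
    HurwitzZeta.hurwitzZeta (x : UnitAddCircle) 0 = 1 / 2 - x := by
  have hx0 : (x : ℂ) ≠ 0 := by exact_mod_cast hx.ne'
  set R : ℂ → ℂ := fun s => (s - 1) * HurwitzZeta.hurwitzZeta (x : UnitAddCircle) s -
    (x : ℂ) ^ (1 - s) + (1 - s) * (1 / 2) * (x : ℂ) ^ (-s) with hR
  have hRd : ∀ s : ℂ, s ≠ 1 → DifferentiableAt ℂ R s := by
    intro s hs
    have h1 := HurwitzZeta.differentiableAt_hurwitzZeta (x : UnitAddCircle) hs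
    have h2 : DifferentiableAt ℂ (fun s : ℂ => (x : ℂ) ^ (1 - s)) s :=
      (differentiableAt_id.const_sub 1).const_cpow (Or.inl hx0)
    have h3 : DifferentiableAt ℂ (fun s : ℂ => (x : ℂ) ^ (-s)) s :=
      (differentiableAt_id.neg).const_cpow (Or.inl hx0)
    exact (((differentiableAt_id.sub_const 1).mul h1).sub h2).add
      (DifferentiableAt.mul (by fun_prop) h3)
  set V : Set ℂ := U ∩ {s : ℂ | 0 < s.im} with hV
  have hVo : IsOpen V := U_open.inter (isOpen_lt continuous_const Complex.continuous_im)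
  have hVc : Convex ℝ V := by
    have h1 : Convex ℝ {s : ℂ | -(1 / 2) < s.re} := convex_halfSpace_re_gt _
    have h2 : Convex ℝ {s : ℂ | ‖s‖ < 5} := by
      have : {s : ℂ | ‖s‖ < 5} = Metric.ball 0 5 := by ext z; simp
      rw [this]; exact convex_ball _ _
    exact (h1.inter h2).inter (convex_halfSpace_im_gt _)
  have hV1 : ∀ s ∈ V, s ≠ 1 := by
    intro s hs h
    have := hs.2
    rw [h] at this
    simp at this
  have hmem2 : (2 + I : ℂ) ∈ U := by
    refine ⟨by simp; norm_num, ?_⟩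
    calc ‖(2 + I : ℂ)‖ ≤ ‖(2 : ℂ)‖ + ‖I‖ := norm_add_le _ _
      _ < 5 := by simp; norm_num
  have heq : EqOn (SG x) R V := by
    refine AnalyticOnNhd.eqOn_of_preconnected_of_eventuallyEq (z₀ := 2 + I)
      (((SG_diff x hx hx1).mono inter_subset_left).analyticOnNhd hVo)
      (DifferentiableOn.analyticOnNhd (fun s hs => (hRd s (hV1 s hs)).differentiableWithinAt) hVo)
      hVc.isPreconnected ⟨hmem2, by simp⟩ ?_
    have hopen1 : IsOpen ({s : ℂ | 1 < s.re} ∩ U) :=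
      (isOpen_lt continuous_const Complex.continuous_re).inter U_open
    have hmem : (2 + I : ℂ) ∈ ({s : ℂ | 1 < s.re} ∩ U) := ⟨by simp, hmem2⟩
    filter_upwards [hopen1.mem_nhds hmem] with z hz
    exact SG_right x hx hx1 hz.2 hz.1
  have hhU : (0 : ℂ) ∈ U := ⟨by norm_num, by norm_num⟩
  have hseq : Tendsto (fun n : ℕ => ((1 / ((n : ℝ) + 1) : ℝ) : ℂ) * I) atTop (𝓝 0) := by
    have h1 := tendsto_one_div_add_atTop_nhds_zero_nat (𝕜 := ℝ)
    have h2 := ((Complex.continuous_ofReal.tendsto 0).comp h1).mul_const I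
    simpa [Function.comp_def] using h2
  have hmemV : ∀ᶠ n : ℕ in atTop, ((1 / ((n : ℝ) + 1) : ℝ) : ℂ) * I ∈ V := by
    filter_upwards [hseq.eventually (U_open.mem_nhds hhU)] with n hn
    refine ⟨hn, ?_⟩
    have h0 : (0 : ℝ) < 1 / ((n : ℝ) + 1) := by positivity
    generalize (1 : ℝ) / ((n : ℝ) + 1) = r at h0
    have h1 : (((r : ℝ) : ℂ) * I).im = r := by simp
    show 0 < (((r : ℝ) : ℂ) * I).im
    rw [h1]
    exact h0
  have t1 := ((SG_diff x hx hx1).differentiableAt (U_open.mem_nhds hhU)).continuousAt.tendsto.comp hseq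
  have t2 := (hRd 0 (by norm_num)).continuousAt.tendsto.comp hseq
  have t3 : Tendsto (SG x ∘ fun n : ℕ => ((1 / ((n : ℝ) + 1) : ℝ) : ℂ) * I) atTop
      (𝓝 (R 0)) := by
    refine t2.congr' ?_
    filter_upwards [hmemV] with n hn
    exact (heq hn).symm
  have h0 : SG x 0 = R 0 := tendsto_nhds_unique t1 t3
  have hS : SG x 0 = 0 := by
    unfold SG
    have : ∀ n, G x n 0 = 0 := by
      intro n
      simp only [G, sub_zero, Complex.cpow_one, neg_zero, Complex.cpow_zero]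
      push_cast
      ring
    simp [this]
  rw [hS, hR] at h0
  simp only [sub_zero, Complex.cpow_one, neg_zero, Complex.cpow_zero] at h0
  linear_combination h0

end Pool.Agent.K4H33.SK
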