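import Pool.Agent.K4H33.SK.Unit

/-! The unit `κ` obtained from an elliptic unit by the abelian root property. -/

set_option autoImplicit false
set_option linter.style.haveILetI false

namespace Pool.Agent.K4H33.SK
open NumberField Module IntermediateField

lemma exists_kappa {ι : Qbar →+* ℂ} {K k L : IntermediateField ℚ Qbar} {c c₀ σ₀ : GQ}
    (hD : ConjData ι K k c c₀ σ₀) (hkL : k ≤ L) {W : ℕ} (hW : 0 < W) {C : GQ → ℕ → ℕ}
    {Z : GQ → ℂ → ℂ} {ε : Qbar} (hε : ε ∈ L) (hε0 : ε ≠ 0) (hlim : LimitFormula ι k W C Z ε)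
    (hint : ∀ σ : GQ, Fixes k σ → IsIntegral ℤ (σ ε / ε)) (hab : AbelianRoot k W ε)
    (hsym : deriv (Z σ₀) 0 = deriv (Z (σ₀ * (c * c₀)⁻¹)) 0) :
    ∃ κ : Qbar, κ ∈ L ∧ κ ≠ 0 ∧ IsIntegral ℤ κ ∧ IsIntegral ℤ κ⁻¹ ∧ c₀ κ = κ⁻¹ ∧
      ∀ g : GQ, Fixes k g → (Real.log (‖ι (g κ)‖ ^ 2) : ℂ) =
        -(deriv (Z g) 0 - deriv (Z (g * (c * c₀)⁻¹)) 0) := by
  obtain ⟨lam, hlam⟩ := IsAlgClosed.exists_pow_nat_eq ε hW
  have hlam0 : lam ≠ 0 := by
    rintro rfl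
    rw [zero_pow hW.ne'] at hlam
    exact hε0 hlam.symm
  set a : GQ := c * c₀ with ha
  have hak : Fixes k a := hD.a_k
  have haik : Fixes k a⁻¹ := hak.inv
  set κ : Qbar := lam / a⁻¹ lam with hκ
  have hal0 : a⁻¹ lam ≠ 0 := by simpa using hlam0
  have hκ0 : κ ≠ 0 := div_ne_zero hlam0 hal0
  have hκW : κ ^ W = ε / a⁻¹ ε := by rw [hκ, div_pow, ← map_pow, hlam]
  have hroot : ∀ ξ : Qbar, ξ ^ W = 1 → a⁻¹ ξ = ξ := by
    intro ξ hξ
    rw [AlgEquiv.aut_inv, AlgEquiv.symm_apply_eq]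
    exact (hD.a_root hW.ne' hξ).symm
  -- membership
  have hκL : κ ∈ L := by
    apply mem_of_fixed
    intro σ hσ
    have hσk : Fixes k σ := hσ.mono hkL
    set ξ : Qbar := σ lam / lam with hξ
    have hξW : ξ ^ W = 1 := by
      rw [hξ, div_pow, ← map_pow, hlam, hσ ε hε, div_self hε0]
    have h1 : σ lam = ξ * lam := by rw [hξ, div_mul_cancel₀ _ hlam0]
    have h2 : σ (a⁻¹ lam) = ξ * a⁻¹ lam := by
      rw [hab lam hlam σ a⁻¹ hσk haik, h1, map_mul, hroot ξ hξW]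
    have hξ0 : ξ ≠ 0 := by
      rintro h
      rw [h, zero_pow hW.ne'] at hξW
      exact zero_ne_one hξW
    rw [hκ, map_div₀, h1, h2, mul_div_mul_left _ _ hξ0]
  -- integrality
  have haε0 : a⁻¹ ε ≠ 0 := by simpa using hε0
  have hκi : IsIntegral ℤ κ := by
    refine IsIntegral.of_pow hW ?_
    rw [hκW]
    have h1 : ε / a⁻¹ ε = a⁻¹ (a ε / ε) := by
      rw [map_div₀]
      congr 1
      rw [← AlgEquiv.mul_apply, inv_mul_cancel, AlgEquiv.one_apply]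
    rw [h1]
    exact (hint a hak).map ((a⁻¹ : GQ) : Qbar →+* Qbar).toIntAlgHom
  have hκi' : IsIntegral ℤ κ⁻¹ := by
    refine IsIntegral.of_pow hW ?_
    rw [inv_pow, hκW, inv_div]
    exact hint a⁻¹ haik
  -- the logarithms
  have hlog : ∀ g : GQ, Fixes k g → (Real.log (‖ι (g κ)‖ ^ 2) : ℂ) =
        -(deriv (Z g) 0 - deriv (Z (g * a⁻¹)) 0) := by
    intro g hg
    have h1 := (hlim g hg).2.2
    have h2 := (hlim (g * a⁻¹) (hg.mul haik)).2.2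
    have hn1 : ‖ι (g ε)‖ ^ 2 ≠ 0 := by
      apply pow_ne_zero
      rw [norm_ne_zero_iff, Ne, map_eq_zero]
      simpa using hε0
    have hn2 : ‖ι ((g * a⁻¹) ε)‖ ^ 2 ≠ 0 := by
      apply pow_ne_zero
      rw [norm_ne_zero_iff, Ne, map_eq_zero]
      simpa using hε0
    have h3 : (W : ℝ) * Real.log (‖ι (g κ)‖ ^ 2) =
        Real.log (‖ι (g ε)‖ ^ 2) - Real.log (‖ι ((g * a⁻¹) ε)‖ ^ 2) := by
      rw [← Real.log_pow, ← Real.log_div hn1 hn2, ← pow_mul, mul_comm 2 W, pow_mul, ← norm_pow,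
        ← map_pow, ← map_pow, hκW, map_div₀, map_div₀, norm_div, div_pow]
      rfl
    have h4 : (W : ℂ) * (Real.log (‖ι (g κ)‖ ^ 2) : ℂ) =
        -(W : ℂ) * deriv (Z g) 0 - -(W : ℂ) * deriv (Z (g * a⁻¹)) 0 := by
      rw [← h1, ← h2]
      exact_mod_cast h3
    have hW' : (W : ℂ) ≠ 0 := Nat.cast_ne_zero.2 hW.ne'
    apply mul_left_cancel₀ hW'
    rw [h4]
    ring
  refine ⟨κ, hκL, hκ0, hκi, hκi', ?_, hlog⟩
  -- complex conjugation
  have h1 := hlog σ₀ hD.s_k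
  rw [hsym, sub_self, neg_zero] at h1
  have h2 : Real.log (‖ι (σ₀ κ)‖ ^ 2) = 0 := by exact_mod_cast h1
  have h3 : 0 < ‖ι (σ₀ κ)‖ ^ 2 := by
    have : ι (σ₀ κ) ≠ 0 := by
      rw [Ne, map_eq_zero]
      simpa using hκ0
    positivity
  have h4 : ‖ι (σ₀ κ)‖ ^ 2 = 1 := by
    rcases Real.log_eq_zero.1 h2 with h | h | h
    · exact absurd h h3.ne'
    · exact h
    · linarith
  have h5 : σ₀ (κ * c₀ κ) = 1 := by
    apply ι.injective
    have h6 : σ₀ (c₀ κ) = c (σ₀ κ) := by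
      rw [← AlgEquiv.mul_apply, hD.rel, AlgEquiv.mul_apply]
    rw [map_mul, map_mul, h6, hD.conj, Complex.mul_conj, Complex.normSq_eq_norm_sq, h4, map_one]
    norm_num
  have h6 : κ * c₀ κ = 1 := by
    apply σ₀.injective
    rw [h5, map_one]
  exact eq_inv_of_mul_eq_one_right h6

end Pool.Agent.K4H33.SK
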