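import Pool.Agent.K4H33.SK.Act

/-! The main theorem: Stark units over a complex cubic field from elliptic units. -/

set_option autoImplicit false
set_option linter.style.haveILetI false

namespace Pool.Agent.K4H33.SK
open NumberField Module IntermediateField

/-- **Stark units over complex cubic fields.** -/
theorem stark_cubic (ι : Qbar →+* ℂ) (K k k' : IntermediateField ℚ Qbar) [NumberField K]
    [NumberField k] (hK : finrank ℚ K = 3) (hk : finrank ℚ k = 2) (hN : Normal ℚ ↥(K ⊔ k))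
    (hι : ∃ x ∈ K, (ι x).im ≠ 0) (f : ℕ) (hf : 2 ≤ f) (ζ : Qbar) (hζ : IsPrimitiveRoot ζ f)
    (hk' : k' ≤ ℚ⟮ζ⟯) (𝔪 : Ideal (𝓞 k)) (h𝔪 : 𝔪 ≤ Ideal.span {(f : 𝓞 k)})
    (art : Ideal (𝓞 k) → GQ) (hart : IsArtin k (K ⊔ k ⊔ ℚ⟮ζ⟯) 𝔪 art)
    (artK : Ideal (𝓞 K) → GQ)
    (hartK : IsArtin K (K ⊔ ℚ⟮ζ⟯) (Ideal.span {(f : 𝓞 K)}) artK)
    (hA : ArtinFactorization K k f 𝔪 art) (W' : ℕ) (hW' : IsTorsionOrder (K ⊔ k ⊔ k') W')
    (hS : StarkImQuad ι k (K ⊔ k ⊔ k') 𝔪 art W') (W : ℕ) (hW : IsTorsionOrder (K ⊔ k') W) :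
    StarkCubic ι K (K ⊔ k') (Ideal.span {(f : 𝓞 K)}) artK W := by
  classical
  haveI : NeZero f := ⟨by omega⟩
  obtain ⟨c, c₀, σ₀, hD⟩ := exists_conjData ι hK hk hN hι
  obtain ⟨Z, ε, hε, hε0, hlim, hint, hab⟩ := hS
  set a : GQ := c * c₀ with ha
  have hkE : k ≤ K ⊔ k ⊔ k' := le_sup_right.trans le_sup_left
  have haζ : a ζ = ζ := hD.a_root (NeZero.ne f) hζ.pow_eq_one
  have haζ' : Fixes ℚ⟮ζ⟯ a := fixes_adjoin haζ
  have hak' : Fixes k' a := haζ'.mono hk'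
  have hK3 : ∀ {τ : GQ}, Fixes (K ⊔ k) τ → Fixes K τ := fun h => (fixes_sup.1 h).1
  have hk2 : ∀ {τ : GQ}, Fixes (K ⊔ k) τ → Fixes k τ := fun h => (fixes_sup.1 h).2
  -- the unit `κ`
  have hsym : deriv (Z σ₀) 0 = deriv (Z (σ₀ * (c * c₀)⁻¹)) 0 := by
    have h1 : Fixes k (σ₀ * (c * c₀)⁻¹) := hD.s_k.mul hD.a_k.inv
    refine (isZeta_deriv (hlim σ₀ hD.s_k).1 (hlim _ h1).1 fun n _ => ?_).1
    refine cnt_symm' hζ hf hk' h𝔪 hart hA hD.s_k h1 hD.s_K hD.sa_K ?_ n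
    intro x hx
    rw [AlgEquiv.mul_apply, hak'.inv x hx]
  obtain ⟨κ, hκE, hκ0, hκi, hκi', hcκ, hlog⟩ :=
    exists_kappa hD hkE hW'.1 hε hε0 hlim hint hab hsym
  -- the group `Y`
  set Y : Subgroup (QQ hζ k') := (K ⊔ k).fixingSubgroup.map (qq hζ k') with hYdef
  haveI : Fintype Y := Fintype.ofFinite Y
  have hY : ∀ g, Fixes (K ⊔ k) g → qq hζ k' g ∈ Y := fun g hg => ⟨g, fixes_iff.1 hg, rfl⟩
  have hYex : ∀ y : Y, ∃ g : GQ, Fixes (K ⊔ k) g ∧ qq hζ k' g = y := by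
    rintro ⟨y, g, hg, hy⟩
    exact ⟨g, fixes_iff.2 hg, hy⟩
  choose g hg1 hg2 using hYex
  have hqa : qq hζ k' a = 1 := by
    rw [← map_one (qq hζ k'), qq_eq_iff hζ hk']
    exact hak'
  have hpow : ∀ g : GQ, Fixes k g → ∃ g' : GQ, Fixes (K ⊔ k) g' ∧ qq hζ k' g' = qq hζ k' g := by
    intro g hg
    obtain ⟨-, j, -, hj⟩ := cubic hK hk hN hD.a_k hD.a_K hg
    refine ⟨(a ^ j)⁻¹ * g, agree_iff.1 hj, ?_⟩
    rw [map_mul, map_inv, map_pow, hqa, one_pow, inv_one]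
    exact one_mul (qq hζ k' g)
  -- the class of complex conjugation
  have hqc : qq hζ k' c = pp hζ k' (-1) := by rw [qq_apply, aut_conj hζ hD.conj]
  have hqc₀ : qq hζ k' c₀ = pp hζ k' (-1) := by
    rw [← hqc]
    have h1 := congrArg (qq hζ k') hD.rel
    rw [map_mul, map_mul, mul_comm] at h1
    exact mul_right_cancel h1
  have hθ : ∀ x, theta (pp hζ k') (qq hζ k' c₀ * x) = -theta (pp hζ k') x := fun x => by
    rw [hqc₀, theta_neg _ hf]
  -- the exponents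
  choose T hT using W_theta hζ (le_sup_right : k' ≤ K ⊔ k') hW
  have hTodd : ∀ x, T (qq hζ k' c₀ * x) = -T x := by
    intro x
    have h1 : (T (qq hζ k' c₀ * x) : ℚ) = -(T x : ℚ) := by
      rw [← hT, ← hT, hθ]; ring
    exact_mod_cast h1
  set κY : Y → Qbar := fun y => g y κ with hκY
  have hκY0 : ∀ y, κY y ≠ 0 := fun y => by simpa [hκY] using hκ0
  have hact : ∀ (τ : GQ), Fixes K τ → ∀ t : QQ hζ k' → ℤ, (∀ x, t (qq hζ k' c₀ * x) = -t x) →
      τ (ell κY t) = ell κY (fun x => t (qq hζ k' τ * x)) := fun τ hτ t ht =>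
    act_ell hζ hD hk hN hk' hY hg1 hg2 hκE hcκ hτ ht
  have hκYi : ∀ y, IsIntegral ℤ (κY y) := fun y => hκi.map ((g y : GQ) : Qbar →+* Qbar).toIntAlgHom
  have hκYi' : ∀ y, IsIntegral ℤ (κY y)⁻¹ := fun y => by
    have h1 := hκi'.map ((g y : GQ) : Qbar →+* Qbar).toIntAlgHom
    have h2 : ((g y : GQ) : Qbar →+* Qbar).toIntAlgHom κ⁻¹ = (κY y)⁻¹ := map_inv₀ (g y) κ
    rwa [h2] at h1
  refine ⟨ZK hζ Y g a Z, ell κY T, ?_, ell_ne hκY0 T, ?_, ell_integral hκYi hκYi' T, ?_, ?_, ?_⟩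
  · -- membership in `H`
    apply mem_of_fixed
    intro σ hσ
    have h1 : qq hζ k' σ = 1 := by
      rw [← map_one (qq hζ k'), qq_eq_iff hζ hk']
      exact (fixes_sup.1 hσ).2
    rw [hact σ (fixes_sup.1 hσ).1 T hTodd, h1]
    congr 1
    ext x
    congr 1
    exact one_mul x
  · -- the limit formula
    intro σ hσ
    have hgk : ∀ y, Fixes k (g y) := fun y => hk2 (hg1 y)
    have hagk : ∀ y, Fixes k (a * g y) := fun y => hD.a_k.mul (hgk y)
    have z1 : ∀ y, Z (g y) 0 = 0 := fun y => (hlim _ (hgk y)).2.1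
    have z2 : ∀ y, Z (a * g y) 0 = 0 := fun y => (hlim _ (hagk y)).2.1
    refine ⟨?_, ZK_zero hζ Y g a Z z1 z2, ?_⟩
    · refine ZK_isZeta hζ Y g a Z (c := cnt k (K ⊔ k ⊔ k') 𝔪 art)
        (fun y => (hlim _ (hgk y)).1) (fun y => (hlim _ (hagk y)).1) (fun n => ?_)
      exact coeff_identity hζ hf hk' h𝔪 hart hartK hA hD.a_k hD.a_K hak' hpow Y hY g hg1 hg2 hσ n
    · rw [ZK_deriv hζ Y g a Z hf z1 z2 (fun y => (hlim _ (hgk y)).1.1)
        (fun y => (hlim _ (hagk y)).1.1), hact σ hσ T hTodd, log_ell ι hκY0]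
      push_cast
      rw [Finset.mul_sum]
      refine Finset.sum_congr rfl fun y _ => ?_
      have h1 := hlog (g y) (hgk y)
      have h2 : deriv (Z (g y * (c * c₀)⁻¹)) 0 = deriv (Z (a * g y)) 0 := by
        have h3 : Fixes k (g y * (c * c₀)⁻¹) := (hgk y).mul hD.a_k.inv
        refine (isZeta_deriv (hlim _ h3).1 (hlim _ (hagk y)).1 fun n _ => ?_).1
        refine cnt_symm' hζ hf hk' h𝔪 hart hA h3 (hagk y) ?_ ?_ ?_ n
        · intro h
          apply hD.a_K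
          have h4 := ((hK3 (hg1 y)).inv.mul h).inv
          have h5 : ((g y)⁻¹ * (g y * (c * c₀)⁻¹))⁻¹ = c * c₀ := by group
          rwa [h5] at h4
        · intro h
          apply hD.a_K
          have h4 := h.mul (hK3 (hg1 y)).inv
          rwa [mul_assoc, mul_inv_cancel, mul_one] at h4
        · intro x hx
          have h4 : (c * c₀)⁻¹ x = x := hak'.inv x hx
          have h5 : a (g y x) = g y x := by
            rw [comm_adjoin hζ a (g y) x (hk' hx), haζ' x (hk' hx)]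
          rw [AlgEquiv.mul_apply, h4, AlgEquiv.mul_apply, h5]
      rw [h2] at h1
      have h6 : ((T (qq hζ k' σ * (y : QQ hζ k')⁻¹) : ℤ) : ℂ) =
          (W : ℂ) * (theta (pp hζ k') (qq hζ k' σ * (y : QQ hζ k')⁻¹) : ℂ) := by
        have h7 := hT (qq hζ k' σ * (y : QQ hζ k')⁻¹)
        have h8 : (((T (qq hζ k' σ * (y : QQ hζ k')⁻¹) : ℤ) : ℚ) : ℂ) =
          ((W : ℚ) * theta (pp hζ k') (qq hζ k' σ * (y : QQ hζ k')⁻¹) : ℚ) := by rw [h7]
        push_cast at h8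
        exact h8
      have h9 : ((Real.log (‖ι (κY y)‖ ^ 2) : ℝ) : ℂ) =
          -(deriv (Z (g y)) 0 - deriv (Z (a * g y)) 0) := h1
      rw [h9, h6]
      ring
  · -- integrality of the inverse
    rw [← ell_neg]
    exact ell_integral hκYi hκYi' _
  · -- the real place
    intro w hw
    obtain ⟨τ, hτ⟩ := exists_lift ι w
    have h1 : Fixes K (τ⁻¹ * c * τ) := by
      intro x hx
      rw [AlgEquiv.mul_apply, AlgEquiv.mul_apply, AlgEquiv.aut_inv, AlgEquiv.symm_apply_eq]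
      apply ι.injective
      rw [hD.conj]
      have h2 := hw x hx
      rw [hτ] at h2
      exact Complex.conj_eq_iff_im.2 h2
    have h2 : qq hζ k' (τ⁻¹ * c * τ) = qq hζ k' c₀ := by
      rw [map_mul, map_mul, map_inv, hqc₀, hqc, mul_comm, mul_inv_cancel_left]
    have h3 : (τ⁻¹ * c * τ) (ell κY T) = (ell κY T)⁻¹ := by
      rw [hact _ h1 T hTodd, ← ell_neg, h2]
      congr 1
      ext x
      rw [hTodd]
      rfl
    have h4 : c (τ (ell κY T)) = (τ (ell κY T))⁻¹ := by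
      rw [← map_inv₀, ← h3, AlgEquiv.mul_apply, AlgEquiv.mul_apply, AlgEquiv.aut_inv,
        AlgEquiv.apply_symm_apply]
    have h5 : ι (τ (ell κY T)) ≠ 0 := by
      rw [Ne, map_eq_zero]
      simpa using ell_ne hκY0 T
    have h6 := hD.conj (τ (ell κY T))
    rw [h4, map_inv₀] at h6
    have h7 : ι (τ (ell κY T)) * (starRingEnd ℂ) (ι (τ (ell κY T))) = 1 := by
      rw [← h6, mul_inv_cancel₀ h5]
    rw [Complex.mul_conj, Complex.normSq_eq_norm_sq] at h7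
    rw [hτ]
    have h8 : ‖ι (τ (ell κY T))‖ ^ 2 = 1 := by exact_mod_cast h7
    exact (pow_eq_one_iff_of_nonneg (norm_nonneg _) two_ne_zero).1 h8
  · -- the abelian root property
    intro lam hlam σ τ hσ hτ
    have hlam0 : lam ≠ 0 := by
      rintro rfl
      rw [zero_pow hW.1.ne'] at hlam
      exact ell_ne hκY0 T hlam.symm
    have hfW : 0 < 2 * f * W := by
      have := hW.1
      positivity
    -- the action on roots of unity, and the integers `u`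
    have hn : ∀ σ : GQ, Fixes K σ → ∃ (n : ℕ) (u : QQ hζ k' → ℤ),
        (∀ ξ : Qbar, ξ ^ W = 1 → σ ξ = ξ ^ n) ∧
        (∀ x, (u x : ℚ) = theta (pp hζ k') (qq hζ k' σ * x) - n * theta (pp hζ k') x) := by
      intro σ _
      obtain ⟨n, hn, hn2⟩ := exists_pow hfW σ
      have h1 : n.Coprime f := Nat.Coprime.coprime_dvd_right ⟨2 * W, by ring⟩ hn
      have h2 : n.Coprime 2 := Nat.Coprime.coprime_dvd_right ⟨f * W, by ring⟩ hn
      have hodd : Odd n := Nat.coprime_two_right.1 h2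
      set v : (ZMod f)ˣ := ZMod.unitOfCoprime n h1 with hv
      have hv1 : (n : ZMod f) = v := (ZMod.coe_unitOfCoprime n h1).symm
      have hv2 : hζ.autToPow ℚ σ = v := by
        refine aut_eq hζ hv1 (hn2 ζ ?_)
        rw [show 2 * f * W = f * (2 * W) by ring, pow_mul, hζ.pow_eq_one, one_pow]
      choose u hu using theta_int (pp hζ k') n hodd v hv1
      refine ⟨n, u, fun ξ hξ => hn2 ξ ?_, fun x => ?_⟩
      · rw [mul_comm, pow_mul, hξ, one_pow]
      · rw [← hu, qq_apply, hv2]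
    obtain ⟨n, u, hn1, hu⟩ := hn σ hσ
    obtain ⟨m, v, hm1, hv⟩ := hn τ hτ
    have hlcomm : ∀ x y z : QQ hζ k', x * (y * z) = y * (x * z) := fun x y z => mul_left_comm x y z
    have hodd : ∀ (σ : GQ) (n : ℕ) (u : QQ hζ k' → ℤ),
        (∀ x, (u x : ℚ) = theta (pp hζ k') (qq hζ k' σ * x) - n * theta (pp hζ k') x) →
        ∀ x, u (qq hζ k' c₀ * x) = -u x := by
      intro σ n u hu x
      have h1 : (u (qq hζ k' c₀ * x) : ℚ) = -(u x : ℚ) := by
        rw [hu, hu, hlcomm, hθ, hθ]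
        ring
      exact_mod_cast h1
    have hpw : ∀ (σ : GQ), Fixes K σ → ∀ (n : ℕ) (u : QQ hζ k' → ℤ),
        (∀ x, (u x : ℚ) = theta (pp hζ k') (qq hζ k' σ * x) - n * theta (pp hζ k') x) →
        (σ lam) ^ W = (lam ^ n * ell κY u) ^ W := by
      intro σ hσ n u hu
      rw [← map_pow, hlam, hact σ hσ T hTodd, mul_pow, ← pow_mul, mul_comm n W, pow_mul, hlam,
        ell_pow, ell_pow, ← ell_add hκY0]
      congr 1
      ext x
      have h1 : (T (qq hζ k' σ * x) : ℚ) = n * T x + W * u x := by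
        rw [← hT, ← hT, hu]
        ring
      rw [Pi.add_apply]
      exact_mod_cast h1
    refine comm_of_cocycle hlam0 (ell_ne hκY0 u) (ell_ne hκY0 v) hn1 hm1 (hpw σ hσ n u hu)
      (hpw τ hτ m v hv) ?_
    rw [hact τ hτ u (hodd σ n u hu), hact σ hσ v (hodd τ m v hv), ell_pow, ell_pow,
      ← ell_add hκY0, ← ell_add hκY0]
    congr 1
    ext x
    rw [Pi.add_apply, Pi.add_apply]
    have h1 : (n : ℚ) * v x + u (qq hζ k' τ * x) = m * u x + v (qq hζ k' σ * x) := by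
      rw [hu, hu, hv, hv, hlcomm (qq hζ k' σ) (qq hζ k' τ) x]
      ring
    exact_mod_cast h1

end Pool.Agent.K4H33.SK
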