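import Pool.Agent.K4H33.SK.Main

/-! Enlarging the set of places. -/

set_option autoImplicit false
set_option linter.style.haveILetI false

namespace Pool.Agent.K4H33.SK
open NumberField Module IntermediateField

/-- Counts only depend on the primes dividing the modulus. -/
lemma cnt_modulus {F L : IntermediateField ℚ Qbar} [NumberField F] {𝔤 𝔤' : Ideal (𝓞 F)}
    (art : Ideal (𝓞 F) → GQ) (h : ∀ 𝔟 : Ideal (𝓞 F), IsCoprime 𝔟 𝔤 ↔ IsCoprime 𝔟 𝔤') (σ : GQ)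
    (n : ℕ) : cnt F L 𝔤 art σ n = cnt F L 𝔤' art σ n := by
  unfold cnt
  refine Nat.card_congr (Equiv.subtypeEquivRight fun 𝔟 => ?_)
  rw [h 𝔟]

lemma isCoprime_prime_iff {R : Type*} [CommRing R] [IsDedekindDomain R] {P 𝔟 : Ideal R}
    (hP : P.IsPrime) (hP0 : P ≠ ⊥) : IsCoprime 𝔟 P ↔ ¬ 𝔟 ≤ P := by
  have hm : P.IsMaximal := hP.isMaximal hP0
  constructor
  · intro h hle
    apply hP.ne_top
    rw [Ideal.isCoprime_iff_sup_eq] at h
    rw [← h]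
    exact (sup_eq_right.2 hle).symm
  · intro h
    rw [Ideal.isCoprime_iff_sup_eq]
    by_contra hne
    apply h
    have h1 : P ≤ 𝔟 ⊔ P := le_sup_right
    have h2 := hm.eq_of_le hne h1
    rw [h2]
    exact le_sup_left

/-- Removing the Euler factor at a prime. -/
lemma cnt_prime {F L M : IntermediateField ℚ Qbar} [NumberField F] {𝔪 𝔤 P : Ideal (𝓞 F)}
    {art : Ideal (𝓞 F) → GQ} (hart : IsArtin F M 𝔪 art) (hLM : L ≤ M)
    (hc : ∀ 𝔟 : Ideal (𝓞 F), IsCoprime 𝔟 𝔤 → IsCoprime 𝔟 𝔪) (hP : P.IsPrime) (hP0 : P ≠ ⊥)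
    (hPg : IsCoprime P 𝔤) (σ : GQ) (n : ℕ) :
    cnt F L 𝔤 art σ n = cnt F L (𝔤 * P) art σ n +
      (if Ideal.absNorm P ∣ n then cnt F L 𝔤 art ((art P)⁻¹ * σ) (n / Ideal.absNorm P) else 0) := by
  classical
  have hfin : {𝔟 : Ideal (𝓞 F) | Ideal.absNorm 𝔟 = n}.Finite := Ideal.finite_setOfPred_absNorm_eq n
  set A : Set (Ideal (𝓞 F)) :=
    {𝔟 | Ideal.absNorm 𝔟 = n ∧ IsCoprime 𝔟 𝔤 ∧ ∀ x ∈ L, art 𝔟 x = σ x} with hA
  set A1 : Set (Ideal (𝓞 F)) :=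
    {𝔟 | Ideal.absNorm 𝔟 = n ∧ IsCoprime 𝔟 (𝔤 * P) ∧ ∀ x ∈ L, art 𝔟 x = σ x} with hA1
  set A2 : Set (Ideal (𝓞 F)) := {𝔟 | 𝔟 ∈ A ∧ 𝔟 ≤ P} with hA2
  have hAfin : A.Finite := hfin.subset fun 𝔟 h => h.1
  have h1 : A = A1 ∪ A2 := by
    ext 𝔟
    simp only [hA, hA1, hA2, Set.mem_ofPred_eq, Set.mem_union, IsCoprime.mul_right_iff,
      isCoprime_prime_iff hP hP0]
    tauto
  have h2 : Disjoint A1 A2 := by
    rw [Set.disjoint_left]
    intro 𝔟 h h'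
    have h3 := (IsCoprime.mul_right_iff.1 h.2.1).2
    rw [isCoprime_prime_iff hP hP0] at h3
    exact h3 h'.2
  have hA1fin : A1.Finite := hAfin.subset (by rw [h1]; exact Set.subset_union_left)
  have hA2fin : A2.Finite := hAfin.subset (by rw [h1]; exact Set.subset_union_right)
  have e0 : cnt F L 𝔤 art σ n = A.ncard := rfl
  have e1 : cnt F L (𝔤 * P) art σ n = A1.ncard := rfl
  rw [e0, e1, h1, Set.ncard_union_eq h2 hA1fin hA2fin]
  congr 1
  have hPn : Ideal.absNorm P ≠ 0 := by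
    rw [Ne, Ideal.absNorm_eq_zero_iff]
    exact hP0
  split_ifs with hd
  · obtain ⟨m, hm⟩ := hd
    have hm' : n / Ideal.absNorm P = m := by
      rw [hm, Nat.mul_div_cancel_left _ (Nat.pos_of_ne_zero hPn)]
    rw [hm']
    have e2 : cnt F L 𝔤 art ((art P)⁻¹ * σ) m =
      {𝔠 : Ideal (𝓞 F) | Ideal.absNorm 𝔠 = m ∧ IsCoprime 𝔠 𝔤 ∧
        ∀ x ∈ L, art 𝔠 x = ((art P)⁻¹ * σ) x}.ncard := rfl
    rw [e2]
    symm
    refine Set.ncard_congr (fun 𝔠 _ => P * 𝔠) ?_ ?_ ?_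
    · rintro 𝔠 ⟨h3, h4, h5⟩
      refine ⟨⟨?_, ?_, ?_⟩, Ideal.mul_le_left⟩
      · rw [map_mul, h3, hm]
      · exact IsCoprime.mul_left hPg h4
      · intro x hx
        rw [hart.mul P 𝔠 (hc P hPg) (hc 𝔠 h4) x (hLM hx), h5 x hx, AlgEquiv.mul_apply,
          AlgEquiv.aut_inv, AlgEquiv.apply_symm_apply]
    · intro 𝔠 𝔡 _ _ h
      exact mul_left_cancel₀ hP0 h
    · rintro 𝔟 ⟨⟨h3, h4, h5⟩, h6⟩
      obtain ⟨𝔠, rfl⟩ := Ideal.dvd_iff_le.2 h6
      rw [IsCoprime.mul_left_iff] at h4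
      refine ⟨𝔠, ⟨?_, h4.2, ?_⟩, rfl⟩
      · rw [map_mul, hm] at h3
        exact Nat.eq_of_mul_eq_mul_left (Nat.pos_of_ne_zero hPn) h3
      · intro x hx
        have h7 := h5 x hx
        rw [hart.mul P 𝔠 (hc P hPg) (hc 𝔠 h4.2) x (hLM hx)] at h7
        rw [AlgEquiv.mul_apply, ← h7, AlgEquiv.aut_inv, AlgEquiv.symm_apply_apply]
  · rw [Set.ncard_eq_zero hA2fin, Set.eq_empty_iff_forall_notMem]
    rintro 𝔟 ⟨⟨h3, -, -⟩, h6⟩
    apply hd
    rw [← h3]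
    exact map_dvd Ideal.absNorm (Ideal.dvd_iff_le.2 h6)

/-- The Dirichlet series of a sequence supported on the multiples of `N`. -/
lemma hasSum_shift {c : ℕ → ℂ} {N : ℕ} (hN : N ≠ 0) {s z : ℂ} (h : LSeriesHasSum c s z) :
    LSeriesHasSum (fun n => if N ∣ n then c (n / N) else 0) s ((N : ℂ) ^ (-s) * z) := by
  classical
  have h1 : LSeriesHasSum (fun n => if n = N then 1 else 0) s ((N : ℂ) ^ (-s)) := by
    unfold LSeriesHasSum
    have h2 : LSeries.term (fun n => if n = N then 1 else 0) s N = (N : ℂ) ^ (-s) := by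
      rw [LSeries.term_of_ne_zero hN, if_pos rfl, Complex.cpow_neg, one_div]
    rw [← h2]
    refine hasSum_single N fun n hn => ?_
    by_cases h0 : n = 0
    · subst h0; simp
    · rw [LSeries.term_of_ne_zero h0, if_neg hn, zero_div]
  have h3 := h1.convolution h
  refine (LSeriesHasSum_congr s _ (fun {n} hn => ?_)).1 h3
  rw [LSeries.convolution_def]
  simp only
  split_ifs with hd
  · obtain ⟨m, rfl⟩ := hd
    rw [Nat.mul_div_cancel_left _ (Nat.pos_of_ne_zero hN),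
      Finset.sum_eq_single (N, m)]
    · simp
    · rintro ⟨a, b⟩ hab hne
      rw [Nat.mem_divisorsAntidiagonal] at hab
      by_cases ha : a = N
      · exfalso
        apply hne
        subst ha
        simp only [Prod.mk.injEq, true_and]
        exact Nat.eq_of_mul_eq_mul_left (Nat.pos_of_ne_zero hN) hab.1
      · simp [ha]
    · intro h'
      exfalso
      apply h'
      rw [Nat.mem_divisorsAntidiagonal]
      exact ⟨rfl, hn⟩
  · refine Finset.sum_eq_zero ?_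
    rintro ⟨a, b⟩ hab
    rw [Nat.mem_divisorsAntidiagonal] at hab
    by_cases ha : a = N
    · exfalso
      apply hd
      rw [← hab.1, ← ha]
      exact dvd_mul_right _ _
    · simp [ha]

/-- All automorphisms fixing `F` commute on `ε`. -/
lemma comm_of_root {F : IntermediateField ℚ Qbar} {W : ℕ} (hW : 0 < W) {ε : Qbar}
    (h : AbelianRoot F W ε) {σ τ : GQ} (hσ : Fixes F σ) (hτ : Fixes F τ) : σ (τ ε) = τ (σ ε) := by
  obtain ⟨lam, rfl⟩ := IsAlgClosed.exists_pow_nat_eq ε hW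
  rw [map_pow, map_pow, h lam rfl σ τ hσ hτ, map_pow, map_pow]

lemma abelianRoot_div {F : IntermediateField ℚ Qbar} {W : ℕ} (hW : 0 < W)
    {ε : Qbar} (hε : ε ≠ 0) (h : AbelianRoot F W ε) {ρ : GQ} (hρ : Fixes F ρ) :
    AbelianRoot F W (ε / ρ ε) := by
  intro mu hmu σ τ hσ hτ
  obtain ⟨lam, hlam⟩ := IsAlgClosed.exists_pow_nat_eq ε hW
  have hlam0 : lam ≠ 0 := by
    rintro rfl
    rw [zero_pow hW.ne'] at hlam
    exact hε hlam.symm
  have hρ0 : ρ lam ≠ 0 := by simpa using hlam0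
  set ν : Qbar := lam / ρ lam with hν
  have hν0 : ν ≠ 0 := div_ne_zero hlam0 hρ0
  have hνW : ν ^ W = ε / ρ ε := by rw [hν, div_pow, ← map_pow, hlam]
  set ξ : Qbar := mu / ν with hξ
  have hξW : ξ ^ W = 1 := by
    rw [hξ, div_pow, hmu, hνW, div_self]
    exact div_ne_zero hε (by simpa using hε)
  have hmu2 : mu = ξ * ν := by rw [hξ, div_mul_cancel₀ _ hν0]
  obtain ⟨n, -, hn⟩ := exists_pow hW σ
  obtain ⟨m, -, hm⟩ := exists_pow hW τ
  have h1 : σ (τ ξ) = τ (σ ξ) := by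
    rw [hn ξ hξW, hm ξ hξW, map_pow, map_pow, hn ξ hξW, hm ξ hξW, ← pow_mul, ← pow_mul, mul_comm]
  have h2 : σ (τ ν) = τ (σ ν) := by
    have h3 : ∀ g : GQ, Fixes F g → g (ρ lam) = ρ (g lam) := fun g hg => h lam hlam g ρ hg hρ
    rw [hν, map_div₀, map_div₀, map_div₀, map_div₀, h3 τ hτ, h3 σ hσ]
    have h4 : σ (ρ (τ lam)) = τ (ρ (σ lam)) := by
      rw [← h3 τ hτ, ← h3 σ hσ]
      have h5 : ∀ g g' : GQ, Fixes F g → Fixes F g' → g (g' (ρ lam)) = ρ (g (g' lam)) := by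
        intro g g' hg hg'
        have h6 := h3 (g * g') (hg.mul hg')
        exact h6
      rw [h5 σ τ hσ hτ, h5 τ σ hτ hσ, h lam hlam σ τ hσ hτ]
    rw [h lam hlam σ τ hσ hτ, h4]
  rw [hmu2, map_mul, map_mul, map_mul, map_mul, h1, h2]

lemma limit_prime {ι : Qbar →+* ℂ} {F L M : IntermediateField ℚ Qbar} [NumberField F]
    {𝔪 𝔤 P : Ideal (𝓞 F)} {art : Ideal (𝓞 F) → GQ} (hart : IsArtin F M 𝔪 art) (hLM : L ≤ M)
    (hc : ∀ 𝔟 : Ideal (𝓞 F), IsCoprime 𝔟 𝔤 → IsCoprime 𝔟 𝔪) (hP : P.IsPrime) (hP0 : P ≠ ⊥)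
    (hPg : IsCoprime P 𝔤) {W : ℕ} (hW : 0 < W) {Z : GQ → ℂ → ℂ} {ε : Qbar} (hε : ε ≠ 0)
    (h : LimitFormula ι F W (cnt F L 𝔤 art) Z ε) (hab : AbelianRoot F W ε) :
    LimitFormula ι F W (cnt F L (𝔤 * P) art)
      (fun σ s => Z σ s - (Ideal.absNorm P : ℂ) ^ (-s) * Z ((art P)⁻¹ * σ) s)
      (ε / (art P)⁻¹ ε) := by
  intro σ hσ
  have hρ : Fixes F (art P)⁻¹ := Fixes.inv (hart.fix P (hc P hPg))
  set ρ : GQ := (art P)⁻¹ with hρdef
  have h1 := h σ hσ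
  have h2 := h (ρ * σ) (hρ.mul hσ)
  have hPn : Ideal.absNorm P ≠ 0 := by
    rw [Ne, Ideal.absNorm_eq_zero_iff]
    exact hP0
  have hPn' : (Ideal.absNorm P : ℂ) ≠ 0 := Nat.cast_ne_zero.2 hPn
  have hd : Differentiable ℂ (fun s : ℂ => (Ideal.absNorm P : ℂ) ^ (-s)) :=
    (differentiable_id.neg).const_cpow (Or.inl hPn')
  refine ⟨⟨?_, ?_⟩, ?_, ?_⟩
  · exact h1.1.1.sub (hd.differentiableOn.mul h2.1.1)
  · intro s hs
    have h3 := (h1.1.2 s hs).sub (hasSum_shift hPn (h2.1.2 s hs))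
    refine (LSeriesHasSum_congr s _ (fun {n} _ => ?_)).1 h3
    have h4 := cnt_prime hart hLM hc hP hP0 hPg σ n
    rw [Pi.sub_apply, h4]
    push_cast
    split_ifs <;> ring
  · simp only
    rw [h1.2.1, h2.2.1]
    ring
  · have hn : ({1}ᶜ : Set ℂ) ∈ nhds (0 : ℂ) := isOpen_compl_singleton.mem_nhds (by simp)
    have d1 := (h1.1.1.differentiableAt hn).hasDerivAt
    have d2 := (h2.1.1.differentiableAt hn).hasDerivAt
    have d3 := (hd 0).hasDerivAt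
    have h5 := (d1.sub (d3.mul d2)).deriv
    have h6 : deriv (fun s => Z σ s - (Ideal.absNorm P : ℂ) ^ (-s) * Z (ρ * σ) s) 0 =
        deriv (Z σ) 0 - deriv (Z (ρ * σ)) 0 := by
      refine Eq.trans h5 ?_
      rw [h2.2.1, mul_zero, zero_add, neg_zero, Complex.cpow_zero, one_mul]
    rw [h6]
    have hn1 : ‖ι (σ ε)‖ ^ 2 ≠ 0 := by
      apply pow_ne_zero
      rw [norm_ne_zero_iff, Ne, map_eq_zero]
      simpa using hε
    have hn2 : ‖ι ((ρ * σ) ε)‖ ^ 2 ≠ 0 := by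
      apply pow_ne_zero
      rw [norm_ne_zero_iff, Ne, map_eq_zero]
      simpa using hε
    have h7 : Real.log (‖ι (σ (ε / ρ ε))‖ ^ 2) =
        Real.log (‖ι (σ ε)‖ ^ 2) - Real.log (‖ι ((ρ * σ) ε)‖ ^ 2) := by
      rw [← Real.log_div hn1 hn2, map_div₀, map_div₀, norm_div, div_pow,
        comm_of_root hW hab hσ hρ]
      rfl
    rw [h7]
    push_cast
    have e1 := h1.2.2
    have e2 := h2.2.2
    rw [e1, e2]
    ring

end Pool.Agent.K4H33.SK
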