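import Pool.Agent.K4H33.SK.Final

/-! The statement layer: ideals, Artin symbols, partial zeta functions, Stark units. -/

set_option autoImplicit false
set_option linter.style.haveILetI false

namespace Pool.Agent.K4H33.SK.Stmt
open NumberField Module IntermediateField

/-- Subfields of `Qbar`. -/
abbrev Sub := IntermediateField ℚ Qbar

/-- Ideals of the ring of integers of `F`. -/
abbrev Ideals (F : Sub) := Ideal (𝓞 F)

/-- The norm of an ideal. -/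
noncomputable abbrev nrm (F : Sub) [NumberField F] (𝔟 : Ideals F) : ℕ := Ideal.absNorm 𝔟

/-- Two ideals are coprime. -/
abbrev Cop (F : Sub) (𝔟 𝔠 : Ideals F) : Prop := IsCoprime 𝔟 𝔠

/-- The product of two ideals. -/
noncomputable abbrev prd (F : Sub) (𝔟 𝔠 : Ideals F) : Ideals F := 𝔟 * 𝔠

/-- The ideal generated by the integer `f`. -/
noncomputable abbrev principal (F : Sub) (f : ℕ) : Ideals F := Ideal.span {(f : 𝓞 F)}

/-- The ideal `𝔓` of the ring of all algebraic integers is a prime above the prime `𝔭`. -/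
abbrev Above (F : Sub) (𝔭 : Ideals F) (𝔓 : Ideal (𝓞 Qbar)) : Prop :=
  𝔓.IsPrime ∧ 𝔓.LiesOver 𝔭

/-- `y` is congruent to `x ^ n` modulo `𝔓`. -/
abbrev PowMod (𝔓 : Ideal (𝓞 Qbar)) (x y : 𝓞 Qbar) (n : ℕ) : Prop := y - x ^ n ∈ 𝔓

/-- `g` is a Frobenius automorphism on `M` at `𝔓` for the norm `n`. -/
def IsFrob (M : Sub) (𝔓 : Ideal (𝓞 Qbar)) (n : ℕ) (g : GQ) : Prop :=
  ∀ x y : 𝓞 Qbar, (x : Qbar) ∈ M → (y : Qbar) = g (x : Qbar) → PowMod 𝔓 x y n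

/-- `art 𝔟` is (a lift to `Qbar` of) the Artin symbol `(𝔟, M/F)`, for ideals `𝔟` of `F` prime to
`𝔪`: it fixes `F`, it is multiplicative in `𝔟`, and it is the Frobenius automorphism
modulo every prime `𝔓` above `𝔭`, for `𝔭` prime. -/
structure IsArtin (F M : Sub) [NumberField F] (𝔪 : Ideals F) (art : Ideals F → GQ) : Prop where
  fix : ∀ 𝔟 : Ideals F, Cop F 𝔟 𝔪 → Fixes F (art 𝔟)
  mul : ∀ 𝔟 𝔠 : Ideals F, Cop F 𝔟 𝔪 → Cop F 𝔠 𝔪 →
    ∀ x ∈ M, art (prd F 𝔟 𝔠) x = art 𝔟 (art 𝔠 x)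
  frob : ∀ 𝔭 : Ideals F, 𝔭.IsPrime → Cop F 𝔭 𝔪 →
    ∀ 𝔓 : Ideal (𝓞 Qbar), Above F 𝔭 𝔓 → IsFrob M 𝔓 (nrm F 𝔭) (art 𝔭)

/-- The number of ideals of `F` of norm `n`, prime to `𝔪`, whose Artin symbol on `L` is `σ`: the
`n`-th coefficient of the partial zeta function of `σ`. -/
noncomputable def cnt (F L : Sub) [NumberField F] (𝔪 : Ideals F) (art : Ideals F → GQ) (σ : GQ)
    (n : ℕ) : ℕ :=
  Nat.card {𝔟 : Ideals F // nrm F 𝔟 = n ∧ Cop F 𝔟 𝔪 ∧ ∀ x ∈ L, art 𝔟 x = σ x}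

/-- The number of ideals of `F` of norm `n`. -/
noncomputable def cntAll (F : Sub) [NumberField F] (n : ℕ) : ℕ :=
  Nat.card {𝔟 : Ideals F // nrm F 𝔟 = n}

/-- What Stark's theorem gives for an abelian extension `L` of an imaginary quadratic field `k`
and the set of places of `k` given by `𝔪` and infinity, where `W` is the number of roots of unity
of `L`. -/
def StarkImQuad (ι : Qbar →+* ℂ) (k L : Sub) [NumberField k] (𝔪 : Ideals k)
    (art : Ideals k → GQ) (W : ℕ) : Prop :=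
  ∃ (Z : GQ → ℂ → ℂ) (ε : Qbar), ε ∈ L ∧ ε ≠ 0 ∧ LimitFormula ι k W (cnt k L 𝔪 art) Z ε ∧
    (∀ σ : GQ, Fixes k σ → IsIntegral ℤ (σ ε / ε)) ∧ AbelianRoot k W ε

/-- The rank one abelian Stark conjecture, in Tate's refined form, for an abelian extension `H` of a
complex cubic field `K` whose complex place is given by `ι`: there is a Stark unit `ε`. -/
def StarkCubic (ι : Qbar →+* ℂ) (K H : Sub) [NumberField K] (𝔣 : Ideals K)
    (art : Ideals K → GQ) (W : ℕ) : Prop :=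
  ∃ (Z : GQ → ℂ → ℂ) (ε : Qbar), ε ∈ H ∧ ε ≠ 0 ∧ LimitFormula ι K W (cnt K H 𝔣 art) Z ε ∧
    IsIntegral ℤ ε ∧ IsIntegral ℤ ε⁻¹ ∧
    (∀ w : Qbar →+* ℂ, (∀ x ∈ K, (w x).im = 0) → ‖w ε‖ = 1) ∧ AbelianRoot K W ε

/-- The Artin factorization `ζ_K(s) = ζ(s) L(s, ψ)` of the zeta function of a cubic field `K`, with
`ψ` a cubic character of its quadratic resolvent field `k`, on the coefficients prime to `f`. -/
def ArtinFactorization (K k : Sub) [NumberField K] [NumberField k] (f : ℕ) (𝔪 : Ideals k)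
    (art : Ideals k → GQ) : Prop :=
  ∀ σ : GQ, Fixes k σ → ¬ Fixes K σ → ∀ n : ℕ, n.Coprime f →
    (cntAll K n : ℤ) =
      ∑ d ∈ n.divisors, ((cnt k (K ⊔ k) 𝔪 art 1 d : ℤ) - cnt k (K ⊔ k) 𝔪 art σ d)

/-- The fields: `K` is a complex cubic field with complex place given by `ι`, `k` its quadratic
resolvent (the quadratic field with `K ⊔ k` normal), `k'` a subfield of the `f`-th cyclotomic
field. -/
structure Fields (ι : Qbar →+* ℂ) (K k k' : Sub) (f : ℕ) (ζ : Qbar) : Prop where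
  deg_K : finrank ℚ K = 3
  deg_k : finrank ℚ k = 2
  normal : Normal ℚ ↥(K ⊔ k)
  complex : ∃ x ∈ K, (ι x).im ≠ 0
  two_le : 2 ≤ f
  prim : IsPrimitiveRoot ζ f
  sub : k' ≤ ℚ⟮ζ⟯

/-- The Artin symbols: those of `k` for `K ⊔ k ⊔ ℚ(ζ)` and a multiple `𝔪` of `f`, and those of
`K` for `K ⊔ ℚ(ζ)` and `f`. -/
structure Symbols (K k : Sub) [NumberField K] [NumberField k] (f : ℕ) (ζ : Qbar) (𝔪 : Ideals k)
    (art : Ideals k → GQ) (artK : Ideals K → GQ) : Prop where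
  dvd : 𝔪 ≤ principal k f
  art_k : IsArtin k (K ⊔ k ⊔ ℚ⟮ζ⟯) 𝔪 art
  art_K : IsArtin K (K ⊔ ℚ⟮ζ⟯) (principal K f) artK

/-- `𝔣` is a nonzero ideal divisible by all primes dividing `f`. -/
def PrimesOver (K : Sub) (f : ℕ) (𝔣 : Ideals K) : Prop :=
  𝔣 ≠ ⊥ ∧ ∀ P : Ideals K, P.IsPrime → (f : 𝓞 K) ∈ P → 𝔣 ≤ P

lemma IsArtin.down {F M : Sub} [NumberField F] {𝔪 : Ideals F} {art : Ideals F → GQ}
    (h : IsArtin F M 𝔪 art) : SK.IsArtin F M 𝔪 art :=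
  ⟨h.fix, h.mul, fun 𝔭 h1 h2 𝔓 h3 h4 => h.frob 𝔭 h1 h2 𝔓 ⟨h3, h4⟩⟩

end Pool.Agent.K4H33.SK.Stmt
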