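import Pool.Agent.K4H33.SK.ZetaK
import Pool.Agent.K4H33.SK.Core

/-! Units built from Stickelberger elements, and complex conjugations. -/

set_option autoImplicit false
set_option linter.style.haveILetI false

namespace Pool.Agent.K4H33.SK
open NumberField Module IntermediateField

section Ell

variable {Q : Type*} [CommGroup Q] {Y : Subgroup Q} [Fintype Y]

/-- The product of the `κ y` with exponents `t (y⁻¹)`. -/
noncomputable def ell (κ : Y → Qbar) (t : Q → ℤ) : Qbar := ∏ y : Y, κ y ^ t ((y : Q)⁻¹)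

variable {κ : Y → Qbar}

lemma ell_ne (hκ : ∀ y, κ y ≠ 0) (t : Q → ℤ) : ell κ t ≠ 0 :=
  Finset.prod_ne_zero_iff.2 fun _ _ => zpow_ne_zero _ (hκ _)

lemma ell_add (hκ : ∀ y, κ y ≠ 0) (t t' : Q → ℤ) : ell κ (t + t') = ell κ t * ell κ t' := by
  simp only [ell, Pi.add_apply, zpow_add₀ (hκ _), Finset.prod_mul_distrib]

lemma ell_neg (t : Q → ℤ) : ell κ (-t) = (ell κ t)⁻¹ := by
  simp only [ell, Pi.neg_apply, zpow_neg, Finset.prod_inv_distrib]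

lemma ell_pow (n : ℕ) (t : Q → ℤ) : ell κ t ^ n = ell κ (fun x => n * t x) := by
  simp only [ell, ← Finset.prod_pow]
  refine Finset.prod_congr rfl fun b _ => ?_
  rw [← zpow_natCast, ← zpow_mul, mul_comm]

lemma ell_act {τ : GQ} {y₀ : Y} (h : ∀ y, τ (κ y) = κ (y₀ * y)) (t : Q → ℤ) :
    τ (ell κ t) = ell κ (fun x => t (y₀ * x)) := by
  symm
  rw [ell, ← Equiv.prod_comp (Equiv.mulLeft y₀), ell, map_prod]
  refine Finset.prod_congr rfl fun y _ => ?_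
  rw [map_zpow₀, h, Equiv.coe_mulLeft]
  congr 2
  push_cast
  rw [mul_inv, mul_inv_cancel_left]

lemma ell_act' {τ : GQ} {y₀ : Y} (h : ∀ y, τ (κ y) = (κ (y₀ * y))⁻¹) (t : Q → ℤ) :
    τ (ell κ t) = ell κ (fun x => -t (y₀ * x)) := by
  symm
  rw [ell, ← Equiv.prod_comp (Equiv.mulLeft y₀), ell, map_prod]
  refine Finset.prod_congr rfl fun y _ => ?_
  rw [map_zpow₀, h, Equiv.coe_mulLeft, inv_zpow, ← zpow_neg]
  congr 2
  push_cast
  rw [mul_inv, mul_inv_cancel_left]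

lemma log_ell (w : Qbar →+* ℂ) (hκ : ∀ y, κ y ≠ 0) (t : Q → ℤ) :
    Real.log (‖w (ell κ t)‖ ^ 2) =
      ∑ y : Y, (t ((y : Q)⁻¹) : ℝ) * Real.log (‖w (κ y)‖ ^ 2) := by
  rw [ell, map_prod, norm_prod, ← Finset.prod_pow, Real.log_prod]
  · refine Finset.sum_congr rfl fun b _ => ?_
    rw [map_zpow₀, norm_zpow, ← Real.log_zpow]
    congr 1
    rw [← zpow_natCast, ← zpow_natCast, ← zpow_mul, ← zpow_mul, mul_comm]
  · intro b _
    have : w (κ b) ≠ 0 := by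
      rw [Ne, map_eq_zero]
      exact hκ _
    rw [map_zpow₀, norm_zpow]
    have h2 : ‖w (κ b)‖ ≠ 0 := norm_ne_zero_iff.2 this
    positivity

lemma isIntegral_zpow {x : Qbar} (h : IsIntegral ℤ x) (h' : IsIntegral ℤ x⁻¹) (n : ℤ) :
    IsIntegral ℤ (x ^ n) := by
  cases n with
  | ofNat n =>
    rw [Int.ofNat_eq_natCast, zpow_natCast]
    exact h.pow n
  | negSucc n =>
    rw [zpow_negSucc, ← inv_pow]
    exact h'.pow _

lemma ell_integral (h : ∀ y, IsIntegral ℤ (κ y)) (h' : ∀ y, IsIntegral ℤ (κ y)⁻¹) (t : Q → ℤ) :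
    IsIntegral ℤ (ell κ t) :=
  IsIntegral.prod _ fun _ _ => isIntegral_zpow (h _) (h' _) _

end Ell

/-! ### Complex conjugations -/

lemma conj_root {ι : Qbar →+* ℂ} {c : GQ} (hc : ∀ x, ι (c x) = (starRingEnd ℂ) (ι x)) {ξ : Qbar}
    {n : ℕ} (hn : n ≠ 0) (h : ξ ^ n = 1) : c ξ = ξ⁻¹ := by
  apply ι.injective
  rw [hc, map_inv₀]
  have h2 : ‖ι ξ‖ = 1 := by
    refine Complex.norm_eq_one_of_pow_eq_one (n := n) ?_ hn
    rw [← map_pow, h, map_one]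
  rw [← Complex.inv_eq_conj h2]

/-- The conjugations of a complex cubic field and its normal closure. -/
structure ConjData (ι : Qbar →+* ℂ) (K k : IntermediateField ℚ Qbar) (c c₀ σ₀ : GQ) : Prop where
  conj : ∀ x, ι (c x) = (starRingEnd ℂ) (ι x)
  rel : σ₀ * c₀ = c * σ₀
  cc : c * c = 1
  cc₀ : c₀ * c₀ = 1
  s_k : Fixes k σ₀
  s_K : ¬ Fixes K σ₀
  c₀_K : Fixes K c₀
  c₀_k : ¬ Fixes k c₀
  a_k : Fixes k (c * c₀)
  a_K : ¬ Fixes K (c * c₀)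
  sa_K : ¬ Fixes K (σ₀ * (c * c₀)⁻¹)

lemma exists_conjData (ι : Qbar →+* ℂ) {K k : IntermediateField ℚ Qbar} [NumberField K]
    (hK : finrank ℚ K = 3) (hk : finrank ℚ k = 2) (hN : Normal ℚ ↥(K ⊔ k))
    (hι : ∃ x ∈ K, (ι x).im ≠ 0) : ∃ c c₀ σ₀ : GQ, ConjData ι K k c c₀ σ₀ := by
  obtain ⟨c, hc⟩ := exists_conj ι
  obtain ⟨σ₁, hσ₁⟩ := exists_real ι K hK
  have hkn := quad_normal hk
  have hcc : c * c = 1 := by
    ext x
    apply ι.injective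
    rw [AlgEquiv.mul_apply, hc, hc, Complex.conj_conj, AlgEquiv.one_apply]
  have hcK : ¬ Fixes K c := by
    intro h
    obtain ⟨x, hx, hx2⟩ := hι
    apply hx2
    have h1 := hc x
    rw [h x hx] at h1
    exact Complex.conj_eq_iff_im.1 h1.symm
  set c₀ : GQ := σ₁⁻¹ * c * σ₁ with hc₀
  have hcinv : c⁻¹ = c := inv_eq_of_mul_eq_one_left hcc
  have hc₀c₀ : c₀ * c₀ = 1 := by
    rw [hc₀]
    calc σ₁⁻¹ * c * σ₁ * (σ₁⁻¹ * c * σ₁) = σ₁⁻¹ * (c * c) * σ₁ := by group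
      _ = 1 := by rw [hcc]; group
  have hc₀K : Fixes K c₀ := by
    intro x hx
    rw [hc₀, AlgEquiv.mul_apply, AlgEquiv.mul_apply, AlgEquiv.aut_inv, AlgEquiv.symm_apply_eq]
    apply ι.injective
    rw [hc]
    exact Complex.conj_eq_iff_im.2 (hσ₁ x hx)
  have hcc₀ : c = σ₁ * c₀ * σ₁⁻¹ := by rw [hc₀]; group
  have hc₀k : ¬ Fixes k c₀ := by
    intro h
    apply hcK
    have h1 : Fixes (K ⊔ k) c₀ := fixes_sup.2 ⟨hc₀K, h⟩
    have h2 := h1.conj hN σ₁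
    rw [← hcc₀] at h2
    exact (fixes_sup.1 h2).1
  have hck : ¬ Fixes k c := by
    intro h
    exact hc₀k (h.conj' hkn σ₁)
  have hak : Fixes k (c * c₀) := quad hk hck hc₀k
  have haK : ¬ Fixes K (c * c₀) := by
    intro h
    apply hcK
    have h1 := h.mul hc₀K
    rwa [mul_assoc, hc₀c₀, mul_one] at h1
  obtain ⟨σ₀, hs1, hs2⟩ : ∃ σ₀ : GQ, Fixes k σ₀ ∧ σ₀ * c₀ = c * σ₀ := by
    by_cases h : Fixes k σ₁
    · exact ⟨σ₁, h, by rw [hc₀]; group⟩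
    · refine ⟨c * σ₁, quad hk hck h, ?_⟩
      rw [hc₀]
      group
  have hsK : ¬ Fixes K σ₀ := by
    intro h
    apply hcK
    have h1 : c = σ₀ * c₀ * σ₀⁻¹ := by rw [hs2]; group
    rw [h1]
    exact (h.mul hc₀K).mul h.inv
  refine ⟨c, c₀, σ₀, hc, hs2, hcc, hc₀c₀, hs1, hsK, hc₀K, hc₀k, hak, haK, ?_⟩
  intro h
  apply hsK
  have h1 : Fixes (K ⊔ k) (σ₀ * (c * c₀)⁻¹) := fixes_sup.2 ⟨h, hs1.mul hak.inv⟩
  have h2 : σ₀ = c⁻¹ * (σ₀ * (c * c₀)⁻¹) * c := by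
    have h3 : c₀⁻¹ = c₀ := inv_eq_of_mul_eq_one_left hc₀c₀
    rw [mul_inv_rev, hcinv, h3]
    calc σ₀ = (c * c) * σ₀ * (c * c) := by rw [hcc]; group
      _ = c * (c * σ₀) * c * c := by group
      _ = c * (σ₀ * c₀) * c * c := by rw [hs2]
      _ = _ := by group
  rw [h2]
  exact (fixes_sup.1 (h1.conj' hN c)).1

section

variable {ι : Qbar →+* ℂ} {K k : IntermediateField ℚ Qbar} {c c₀ σ₀ : GQ}

lemma ConjData.c₀_eq (h : ConjData ι K k c c₀ σ₀) : c₀ = σ₀⁻¹ * c * σ₀ := by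
  rw [mul_assoc, ← h.rel]; group

lemma ConjData.c₀_root (h : ConjData ι K k c c₀ σ₀) {ξ : Qbar} {n : ℕ} (hn : n ≠ 0)
    (hξ : ξ ^ n = 1) : c₀ ξ = ξ⁻¹ := by
  rw [h.c₀_eq, AlgEquiv.mul_apply, AlgEquiv.mul_apply,
    conj_root h.conj hn (ξ := σ₀ ξ) (by rw [← map_pow, hξ, map_one]), AlgEquiv.aut_inv,
    AlgEquiv.symm_apply_eq, map_inv₀]

lemma ConjData.a_root (h : ConjData ι K k c c₀ σ₀) {ξ : Qbar} {n : ℕ} (hn : n ≠ 0)
    (hξ : ξ ^ n = 1) : (c * c₀) ξ = ξ := by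
  rw [AlgEquiv.mul_apply, h.c₀_root hn hξ, map_inv₀, conj_root h.conj hn hξ, inv_inv]

end

end Pool.Agent.K4H33.SK
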