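import Pool.Agent.K4H33.SK.Art

/-! Partial zeta functions of the cubic field in terms of those of the quadratic field. -/

set_option autoImplicit false
set_option linter.style.haveILetI false

namespace Pool.Agent.K4H33.SK
open NumberField Module IntermediateField

/-! ### The identity theorem -/

lemma isZeta_unique {a a' : ℕ → ℕ} {Z Z' : ℂ → ℂ} (h : IsZeta a Z) (h' : IsZeta a' Z')
    (haa : ∀ n, n ≠ 0 → a n = a' n) : Set.EqOn Z Z' {1}ᶜ := by
  have ho : IsOpen ({1}ᶜ : Set ℂ) := isOpen_compl_singleton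
  refine AnalyticOnNhd.eqOn_of_preconnected_of_eventuallyEq (z₀ := 2)
    (h.1.analyticOnNhd ho) (h'.1.analyticOnNhd ho) ?_ (by simp) ?_
  · refine (isConnected_compl_singleton_of_one_lt_rank ?_ 1).isPreconnected
    rw [Complex.rank_real_complex]
    norm_num
  · have h1 : {s : ℂ | 1 < s.re} ∈ nhds (2 : ℂ) :=
      (isOpen_lt continuous_const Complex.continuous_re).mem_nhds (by simp)
    filter_upwards [h1] with s hs
    have e1 := h.2 s hs
    have e2 := h'.2 s hs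
    have e3 := (LSeriesHasSum_congr (f := fun n => (a n : ℂ)) (g := fun n => (a' n : ℂ)) s (Z s)
      (fun {n} hn => by rw [haa n hn])).1 e1
    exact HasSum.unique e3 e2

lemma isZeta_deriv {a a' : ℕ → ℕ} {Z Z' : ℂ → ℂ} (h : IsZeta a Z) (h' : IsZeta a' Z')
    (haa : ∀ n, n ≠ 0 → a n = a' n) : deriv Z 0 = deriv Z' 0 ∧ Z 0 = Z' 0 := by
  have h1 := isZeta_unique h h' haa
  constructor
  · apply Filter.EventuallyEq.deriv_eq
    have h2 : ({1}ᶜ : Set ℂ) ∈ nhds (0 : ℂ) := isOpen_compl_singleton.mem_nhds (by simp)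
    filter_upwards [h2] with s hs
    exact h1 hs
  · exact h1 (by simp)

/-! ### Counting -/

lemma cnt_congr (F L : IntermediateField ℚ Qbar) [NumberField F] (𝔪 : Ideal (𝓞 F))
    (art : Ideal (𝓞 F) → GQ) {g g' : GQ} (h : ∀ x ∈ L, g x = g' x) (n : ℕ) :
    cnt F L 𝔪 art g n = cnt F L 𝔪 art g' n := by
  unfold cnt
  refine Nat.card_congr (Equiv.subtypeEquivRight fun 𝔟 => ?_)
  refine and_congr_right fun _ => and_congr_right fun _ => forall₂_congr fun x hx => ?_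
  rw [h x hx]

section ind
variable {f : ℕ} [NeZero f] {Q : Type*} [CommGroup Q] (p : (ZMod f)ˣ →* Q)

lemma ind_unit (x : Q) (u : (ZMod f)ˣ) [Decidable (p u = x)] :
    ind p x u = if p u = x then 1 else 0 := by
  classical
  unfold ind
  by_cases h : p u = x
  · rw [if_pos ⟨u, rfl, h⟩, if_pos h]
  · rw [if_neg h, if_neg]
    rintro ⟨v, hv, hv2⟩
    apply h
    rw [← Units.ext hv, hv2]

lemma ind_not (x : Q) {j : ZMod f} (hj : ¬ IsUnit j) : ind p x j = 0 := by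
  classical
  unfold ind
  rw [if_neg]
  rintro ⟨v, hv, -⟩
  exact hj (hv ▸ v.isUnit)

end ind

section

variable {K k k' : IntermediateField ℚ Qbar} [NumberField K] [NumberField k]
  {𝔪 : Ideal (𝓞 k)} {art : Ideal (𝓞 k) → GQ} {artK : Ideal (𝓞 K) → GQ} {f : ℕ} [NeZero f]
  {ζ : Qbar}

omit [NeZero f] in
/-- The count over the quadratic field, restricted to the normal closure, is symmetric. -/
lemma cnt_symm (hf : 2 ≤ f) (hA : ArtinFactorization K k f 𝔪 art) {g g' : GQ}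
    (hg : Fixes k g) (hg' : Fixes k g') (hgK : ¬ Fixes K g) (hgK' : ¬ Fixes K g') (n : ℕ) :
    n.Coprime f → cnt k (K ⊔ k) 𝔪 art g n = cnt k (K ⊔ k) 𝔪 art g' n := by
  induction n using Nat.strong_induction_on with
  | _ n ih =>
    intro hn
    have hn0 : n ≠ 0 := by
      rintro rfl
      rw [Nat.coprime_zero_left] at hn
      omega
    have h1 := (hA g hg hgK n hn).symm.trans (hA g' hg' hgK' n hn)
    rw [Finset.sum_sub_distrib, Finset.sum_sub_distrib, sub_right_inj,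
      ← Nat.insert_self_properDivisors hn0, Finset.sum_insert Nat.self_notMem_properDivisors,
      Finset.sum_insert Nat.self_notMem_properDivisors] at h1
    have h2 : ∑ d ∈ n.properDivisors, (cnt k (K ⊔ k) 𝔪 art g d : ℤ) =
        ∑ d ∈ n.properDivisors, (cnt k (K ⊔ k) 𝔪 art g' d : ℤ) := by
      refine Finset.sum_congr rfl fun d hd => ?_
      rw [Nat.mem_properDivisors] at hd
      rw [ih d hd.2 (Nat.Coprime.coprime_dvd_left hd.1 hn)]
    rw [h2] at h1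
    exact_mod_cast add_right_cancel h1

variable (hζ : IsPrimitiveRoot ζ f)

include hζ in
/-- symmetry of the partial zeta functions over the quadratic field -/
lemma cnt_symm' (hf : 2 ≤ f) (hk' : k' ≤ ℚ⟮ζ⟯) (h𝔪 : 𝔪 ≤ Ideal.span {(f : 𝓞 k)})
    (hart : IsArtin k (K ⊔ k ⊔ ℚ⟮ζ⟯) 𝔪 art) (hA : ArtinFactorization K k f 𝔪 art) {g g' : GQ}
    (hg : Fixes k g) (hg' : Fixes k g') (hgK : ¬ Fixes K g) (hgK' : ¬ Fixes K g')
    (hgg : ∀ x ∈ k', g x = g' x) (n : ℕ) :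
    cnt k (K ⊔ k ⊔ k') 𝔪 art g n = cnt k (K ⊔ k ⊔ k') 𝔪 art g' n := by
  have hM : ζ ∈ K ⊔ k ⊔ ℚ⟮ζ⟯ :=
    (le_sup_right : ℚ⟮ζ⟯ ≤ K ⊔ k ⊔ ℚ⟮ζ⟯) (mem_adjoin_simple_self ℚ ζ)
  have h : (cnt k (K ⊔ k ⊔ k') 𝔪 art g n : ℂ) = cnt k (K ⊔ k ⊔ k') 𝔪 art g' n := by
    rw [cnt_sup hart hf hζ hM h𝔪 hk', cnt_sup hart hf hζ hM h𝔪 hk',
      (qq_eq_iff hζ hk').2 hgg]
    by_cases hn : n.Coprime f
    · rw [cnt_symm hf hA hg hg' hgK hgK' n hn]
    · rw [ind_not, zero_mul, zero_mul]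
      rwa [ZMod.isUnit_iff_coprime]
  exact_mod_cast h

/-- **The coefficient identity.** -/
lemma coeff_identity (hf : 2 ≤ f) (hk' : k' ≤ ℚ⟮ζ⟯) (h𝔪 : 𝔪 ≤ Ideal.span {(f : 𝓞 k)})
    (hart : IsArtin k (K ⊔ k ⊔ ℚ⟮ζ⟯) 𝔪 art)
    (hartK : IsArtin K (K ⊔ ℚ⟮ζ⟯) (Ideal.span {(f : 𝓞 K)}) artK)
    (hA : ArtinFactorization K k f 𝔪 art) {a : GQ} (ha : Fixes k a) (haK : ¬ Fixes K a)
    (hak' : Fixes k' a)
    (hpow : ∀ g : GQ, Fixes k g → ∃ g' : GQ, Fixes (K ⊔ k) g' ∧ qq hζ k' g' = qq hζ k' g)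
    (Y : Subgroup (QQ hζ k')) [Fintype Y] (hY : ∀ g, Fixes (K ⊔ k) g → qq hζ k' g ∈ Y)
    (g : Y → GQ) (hg1 : ∀ y, Fixes (K ⊔ k) (g y)) (hg2 : ∀ y, qq hζ k' (g y) = y)
    {σ : GQ} (hσ : Fixes K σ) (n : ℕ) :
    (cnt K (K ⊔ k') (Ideal.span {(f : 𝓞 K)}) artK σ n : ℂ) =
      ∑ y : Y, ∑ i ∈ n.divisorsAntidiagonal, ind (pp hζ k') (qq hζ k' σ * (y : QQ hζ k')⁻¹) i.1 *
        ((cnt k (K ⊔ k ⊔ k') 𝔪 art (g y) i.2 : ℂ) - cnt k (K ⊔ k ⊔ k') 𝔪 art (a * g y) i.2) := by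
  classical
  have hM : ζ ∈ K ⊔ k ⊔ ℚ⟮ζ⟯ :=
    (le_sup_right : ℚ⟮ζ⟯ ≤ K ⊔ k ⊔ ℚ⟮ζ⟯) (mem_adjoin_simple_self ℚ ζ)
  have hMK : ζ ∈ K ⊔ ℚ⟮ζ⟯ := (le_sup_right : ℚ⟮ζ⟯ ≤ K ⊔ ℚ⟮ζ⟯) (mem_adjoin_simple_self ℚ ζ)
  have hqa : qq hζ k' a = 1 := by
    rw [← map_one (qq hζ k'), qq_eq_iff hζ hk']
    exact hak'
  set c1 : ℕ → ℂ := fun d => cnt k (K ⊔ k) 𝔪 art 1 d with hc1
  set ca : ℕ → ℂ := fun d => cnt k (K ⊔ k) 𝔪 art a d with hca
  have e1 : ∀ (y : Y) (d : ℕ), (cnt k (K ⊔ k ⊔ k') 𝔪 art (g y) d : ℂ) =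
      ind (pp hζ k') (y : QQ hζ k') (d : ZMod f) * c1 d := by
    intro y d
    rw [cnt_sup hart hf hζ hM h𝔪 hk', hg2, cnt_congr k (K ⊔ k) 𝔪 art (hg1 y : _) (g' := 1)]
  have e2 : ∀ (y : Y) (d : ℕ), (cnt k (K ⊔ k ⊔ k') 𝔪 art (a * g y) d : ℂ) =
      ind (pp hζ k') (y : QQ hζ k') (d : ZMod f) * ca d := by
    intro y d
    have e0 : qq hζ k' (a * g y) = y := by
      rw [map_mul, hqa]
      exact (one_mul _).trans (hg2 y)
    rw [cnt_sup hart hf hζ hM h𝔪 hk', e0,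
      cnt_congr k (K ⊔ k) 𝔪 art (g := a * g y) (g' := a)]
    intro x hx
    rw [AlgEquiv.mul_apply, hg1 y x hx]
  -- ideals whose norm is not in `Y` do not occur
  have e3 : ∀ (u : (ZMod f)ˣ) (d : ℕ), (u : ZMod f) = d → pp hζ k' u ∉ Y → ∀ τ : GQ,
      cnt k (K ⊔ k) 𝔪 art τ d = 0 := by
    intro u d hu hy τ
    unfold cnt
    rw [Nat.card_eq_zero]
    left
    rw [isEmpty_subtype]
    rintro 𝔟 ⟨h1, h2, -⟩
    apply hy
    have h3 : qq hζ k' (art 𝔟) = pp hζ k' u :=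
      qq_art hart hf hζ hM h𝔪 h2 (by rw [hu, h1])
    obtain ⟨g', hg', hg''⟩ := hpow (art 𝔟) (hart.fix 𝔟 h2)
    rw [← h3, ← hg'']
    exact hY g' hg'
  have key : ∀ e d : ℕ, ∑ y : Y, ind (pp hζ k') (qq hζ k' σ * (y : QQ hζ k')⁻¹) (e : ZMod f) *
      (ind (pp hζ k') (y : QQ hζ k') (d : ZMod f) * c1 d - ind (pp hζ k') (y : QQ hζ k') (d : ZMod f) * ca d) =
      ind (pp hζ k') (qq hζ k' σ) ((e * d : ℕ) : ZMod f) * (c1 d - ca d) := by
    intro e d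
    by_cases hd : IsUnit (d : ZMod f)
    · obtain ⟨u, hu⟩ := hd
      by_cases he : IsUnit (e : ZMod f)
      · obtain ⟨v, hv⟩ := he
        by_cases hy : pp hζ k' u ∈ Y
        · rw [Finset.sum_eq_single (⟨pp hζ k' u, hy⟩ : Y)]
          · have h1 : ind (pp hζ k') (pp hζ k' u) (d : ZMod f) = 1 := by
              rw [← hu, ind_unit, if_pos rfl]
            have h2 : ((e * d : ℕ) : ZMod f) = ((v * u : (ZMod f)ˣ) : ZMod f) := by
              rw [Nat.cast_mul, ← hu, ← hv, Units.val_mul]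
            rw [h1, one_mul, one_mul, ← hv, h2, ind_unit, ind_unit, map_mul]
            simp only [← eq_mul_inv_iff_mul_eq]
          · intro y _ hy2
            have h1 : ind (pp hζ k') (y : QQ hζ k') (d : ZMod f) = 0 := by
              rw [← hu, ind_unit, if_neg]
              intro h
              apply hy2
              exact Subtype.ext h.symm
            rw [h1, zero_mul, zero_mul, sub_zero, mul_zero]
          · intro h
            exact absurd (Finset.mem_univ _) h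
        · have h1 : c1 d = 0 := by
            simp only [hc1]; rw [e3 u d hu hy, Nat.cast_zero]
          have h2 : ca d = 0 := by
            simp only [hca]; rw [e3 u d hu hy, Nat.cast_zero]
          rw [h1, h2]
          simp
      · rw [ind_not (pp hζ k') (qq hζ k' σ) (j := ((e * d : ℕ) : ZMod f)), zero_mul]
        · refine Finset.sum_eq_zero fun y _ => ?_
          rw [ind_not _ _ he, zero_mul]
        · rw [Nat.cast_mul]
          intro h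
          exact he (isUnit_of_mul_isUnit_left h)
    · rw [ind_not (pp hζ k') (qq hζ k' σ) (j := ((e * d : ℕ) : ZMod f)), zero_mul]
      · refine Finset.sum_eq_zero fun y _ => ?_
        rw [ind_not (pp hζ k') (y : QQ hζ k') hd]
        simp
      · rw [Nat.cast_mul]
        intro h
        exact hd (isUnit_of_mul_isUnit_right h)
  rw [Finset.sum_comm]
  have h1 : ∑ i ∈ n.divisorsAntidiagonal, ∑ y : Y,
      ind (pp hζ k') (qq hζ k' σ * (y : QQ hζ k')⁻¹) i.1 *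
        ((cnt k (K ⊔ k ⊔ k') 𝔪 art (g y) i.2 : ℂ) - cnt k (K ⊔ k ⊔ k') 𝔪 art (a * g y) i.2) =
      ∑ i ∈ n.divisorsAntidiagonal, ind (pp hζ k') (qq hζ k' σ) (n : ZMod f) *
        (c1 i.2 - ca i.2) := by
    refine Finset.sum_congr rfl fun i hi => ?_
    rw [Nat.mem_divisorsAntidiagonal] at hi
    rw [← hi.1, ← key]
    refine Finset.sum_congr rfl fun y _ => ?_
    rw [e1, e2]
  rw [h1, ← Finset.mul_sum]
  by_cases hn : n.Coprime f
  · rw [cnt_sup hartK hf hζ hMK le_rfl hk', cnt_base hartK hσ hn]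
    congr 1
    have h2 := hA a ha haK n hn
    have h3 : ((Nat.card {𝔞 : Ideal (𝓞 K) // Ideal.absNorm 𝔞 = n} : ℤ) : ℂ) =
      ((∑ d ∈ n.divisors, ((cnt k (K ⊔ k) 𝔪 art 1 d : ℤ) - cnt k (K ⊔ k) 𝔪 art a d) : ℤ) : ℂ) := by
      rw [h2]
    rw [Nat.sum_divisorsAntidiagonal' (f := fun _ d => c1 d - ca d)]
    push_cast at h3
    exact h3
  · rw [cnt_sup hartK hf hζ hMK le_rfl hk', ind_not, zero_mul, zero_mul]
    rwa [ZMod.isUnit_iff_coprime]

end

end Pool.Agent.K4H33.SK
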