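import Pool.Agent.K4H33.SK.Zeta

/-! Continuation and derivative at zero of the partial zeta functions of the cubic field. -/

set_option autoImplicit false
set_option linter.style.haveILetI false

namespace Pool.Agent.K4H33.SK
open NumberField Module IntermediateField

section

variable {k' : IntermediateField ℚ Qbar} {f : ℕ} [NeZero f] {ζ : Qbar} (hζ : IsPrimitiveRoot ζ f)
  (Y : Subgroup (QQ hζ k')) [Fintype Y] (g : Y → GQ) (a : GQ) (Z : GQ → ℂ → ℂ)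

/-- The continuation of the partial zeta function of `σ`. -/
noncomputable def ZK (σ : GQ) (s : ℂ) : ℂ :=
  ∑ y : Y, zq (pp hζ k') (qq hζ k' σ * (y : QQ hζ k')⁻¹) s * (Z (g y) s - Z (a * g y) s)

lemma ZK_isZeta {c : GQ → ℕ → ℕ} {σ : GQ} {cK : ℕ → ℕ}
    (h1 : ∀ y, IsZeta (c (g y)) (Z (g y))) (h2 : ∀ y, IsZeta (c (a * g y)) (Z (a * g y)))
    (h : ∀ n, (cK n : ℂ) = ∑ y : Y, ∑ i ∈ n.divisorsAntidiagonal,
      ind (pp hζ k') (qq hζ k' σ * (y : QQ hζ k')⁻¹) i.1 *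
        ((c (g y) i.2 : ℂ) - c (a * g y) i.2)) : IsZeta cK (ZK hζ Y g a Z σ) := by
  constructor
  · unfold ZK
    refine DifferentiableOn.fun_sum fun y _ => ?_
    refine DifferentiableOn.mul (fun s hs => (zq_diff _ _ hs).differentiableWithinAt) ?_
    exact (h1 y).1.sub (h2 y).1
  · intro s hs
    have h3 : ∀ y ∈ (Finset.univ : Finset Y), LSeriesHasSum (LSeries.convolution
        (fun n : ℕ => ind (pp hζ k') (qq hζ k' σ * (y : QQ hζ k')⁻¹) (n : ZMod f))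
        ((fun n => (c (g y) n : ℂ)) - fun n => (c (a * g y) n : ℂ))) s
        (zq (pp hζ k') (qq hζ k' σ * (y : QQ hζ k')⁻¹) s * (Z (g y) s - Z (a * g y) s)) :=
      fun y _ => (zq_hasSum _ _ hs).convolution (((h1 y).2 s hs).sub ((h2 y).2 s hs))
    have h4 := LSeriesHasSum.sum h3
    refine (LSeriesHasSum_congr s _ (fun {n} _ => ?_)).1 h4
    rw [h n, Finset.sum_apply]
    refine Finset.sum_congr rfl fun y _ => ?_
    rw [LSeries.convolution_def]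
    rfl

lemma ZK_zero {σ : GQ} (h1 : ∀ y, Z (g y) 0 = 0) (h2 : ∀ y, Z (a * g y) 0 = 0) :
    ZK hζ Y g a Z σ 0 = 0 := by
  unfold ZK
  refine Finset.sum_eq_zero fun y _ => ?_
  rw [h1, h2, sub_zero, mul_zero]

lemma ZK_deriv (hf : 2 ≤ f) {σ : GQ} (h1 : ∀ y, Z (g y) 0 = 0) (h2 : ∀ y, Z (a * g y) 0 = 0)
    (h3 : ∀ y, DifferentiableOn ℂ (Z (g y)) {1}ᶜ)
    (h4 : ∀ y, DifferentiableOn ℂ (Z (a * g y)) {1}ᶜ) :
    deriv (ZK hζ Y g a Z σ) 0 = ∑ y : Y,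
      (theta (pp hζ k') (qq hζ k' σ * (y : QQ hζ k')⁻¹) : ℂ) *
        (deriv (Z (g y)) 0 - deriv (Z (a * g y)) 0) := by
  have hn : ({1}ᶜ : Set ℂ) ∈ nhds (0 : ℂ) := isOpen_compl_singleton.mem_nhds (by simp)
  have d1 : ∀ y : Y, DifferentiableAt ℂ (Z (g y)) 0 := fun y => (h3 y).differentiableAt hn
  have d2 : ∀ y : Y, DifferentiableAt ℂ (Z (a * g y)) 0 := fun y => (h4 y).differentiableAt hn
  have d3 : ∀ y : Y, DifferentiableAt ℂ
      (zq (pp hζ k') (qq hζ k' σ * (y : QQ hζ k')⁻¹)) 0 := fun y => zq_diff _ _ (by simp)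
  have h5 : HasDerivAt (ZK hζ Y g a Z σ) (∑ y : Y,
      (deriv (zq (pp hζ k') (qq hζ k' σ * (y : QQ hζ k')⁻¹)) 0 *
        (Z (g y) 0 - Z (a * g y) 0) + zq (pp hζ k') (qq hζ k' σ * (y : QQ hζ k')⁻¹) 0 *
          (deriv (Z (g y)) 0 - deriv (Z (a * g y)) 0))) 0 := by
    have h6 := HasDerivAt.fun_sum (u := (Finset.univ : Finset Y))
      (A := fun y s => zq (pp hζ k') (qq hζ k' σ * (y : QQ hζ k')⁻¹) s *
        (Z (g y) s - Z (a * g y) s)) (x := (0 : ℂ))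
      (fun y _ => (d3 y).hasDerivAt.mul ((d1 y).hasDerivAt.sub (d2 y).hasDerivAt))
    exact h6
  rw [h5.deriv]
  refine Finset.sum_congr rfl fun y _ => ?_
  rw [h1, h2, sub_zero, mul_zero, zero_add, zq_zero _ hf]

end

end Pool.Agent.K4H33.SK
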